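import Pool.Agent.Helper39.CR.GoalsS
import Pool.Agent.Helper20.CR.PFB
import Pool.Agent.Helper44.CAR.Choi
import Pool.Agent.Helper44.CAR.CTR
import Pool.Agent.Helper18.CAR.MN

/-!
# Project BD (MP_d97caa_an): completely positive approximations of the CAR algebra
-/

set_option autoImplicit false

open scoped ComplexOrder ComplexConjugate Topology

namespace Pool.Agent.Helper82.BD

open Pool.Agent.Helper34.CAR Pool.Agent.Helper39.CR Pool.Agent.Helper61.CAR
  Pool.Agent.Helper44.CAR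

noncomputable section

variable {A : Type} [CStarAlgebra A]

/-! ## Positive functionals -/

theorem cs2 (f : A →ₗ[ℂ] ℂ) (hf : ∀ b, 0 ≤ f (star b * b)) (x y : A) :
    ‖f (star x * y)‖ * ‖f (star x * y)‖ ≤ (f (star x * x)).re * (f (star y * y)).re := by
  letI := Helper20.CR.core f hf
  have h := InnerProductSpace.Core.inner_mul_inner_self_le (𝕜 := ℂ) (F := A) x y
  change ‖f (star x * y)‖ * ‖f (star y * x)‖ ≤
    (f (star x * x)).re * (f (star y * y)).re at h
  have h1 : ‖f (star y * x)‖ = ‖f (star x * y)‖ := by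
    rw [← RCLike.norm_conj (f (star y * x)), ← Helper20.CR.herm f hf, star_mul, star_star]
  rwa [h1] at h

theorem bd2 (f : A →ₗ[ℂ] ℂ) (hf : ∀ b, 0 ≤ f (star b * b)) (a w : A) :
    (f (star (a * w) * (a * w))).re ≤ ‖a‖ ^ 2 * (f (star w * w)).re := by
  let g : A →ₗ[ℂ] ℂ :=
    { toFun := fun b => f (star w * b * w)
      map_add' := fun b c => by rw [mul_add, add_mul, map_add]
      map_smul' := fun r b => by
        rw [mul_smul_comm, smul_mul_assoc, map_smul, RingHom.id_apply] }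
  have hg1 : ∀ b, g b = f (star w * b * w) := fun _ => rfl
  have hg : ∀ b, 0 ≤ g (star b * b) := fun b => by
    have h := hf (b * w)
    rw [star_mul, ← mul_assoc, mul_assoc (star w)] at h
    rw [hg1]
    exact h
  have h := Helper20.CR.bd g hg a
  rw [hg1, hg1, mul_one] at h
  rw [star_mul, ← mul_assoc, mul_assoc (star w)]
  exact h

/-! ## Matrix units -/

theorem star_mu {m : ℕ} (i j : Fin m) : star (mu i j) = mu j i := by
  ext p q
  rw [CStarMatrix.star_apply, mu_apply, mu_apply]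
  by_cases h1 : q = i <;> by_cases h2 : p = j <;> simp [h1, h2]

theorem mu_mu {m : ℕ} (i j k : Fin m) : mu i j * mu j k = mu i k := by
  rw [← star_mu j i, mu_mul]

theorem mu_mu_ne {m : ℕ} (i j k l : Fin m) (h : j ≠ k) : mu i j * mu k l = 0 := by
  ext p q
  rw [CStarMatrix.mul_apply, CStarMatrix.zero_apply]
  refine Finset.sum_eq_zero fun x _ => ?_
  rw [mu_apply, mu_apply]
  by_cases h1 : x = j
  · have : ¬ (x = k ∧ q = l) := fun h2 => h (h1.symm.trans h2.1)
    rw [if_neg this, mul_zero]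
  · have : ¬ (p = i ∧ x = j) := fun h2 => h1 h2.2
    rw [if_neg this, zero_mul]

theorem mu_x_mu {m : ℕ} (i k l n : Fin m) (x : CStarMatrix (Fin m) (Fin m) ℂ) :
    mu i k * x * mu l n = x k l • mu i n := by
  ext p q
  rw [CStarMatrix.mul_apply, Finset.sum_eq_single l, CStarMatrix.mul_apply,
    Finset.sum_eq_single k, CStarMatrix.smul_apply, mu_apply, mu_apply, mu_apply]
  · by_cases h1 : p = i <;> by_cases h2 : q = n <;> simp [h1, h2]
  · intro y _ hy
    rw [mu_apply, if_neg fun h => hy h.2, zero_mul]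
  · intro h
    exact absurd (Finset.mem_univ _) h
  · intro y _ hy
    rw [mu_apply, if_neg fun h => hy h.1, mul_zero]
  · intro h
    exact absurd (Finset.mem_univ _) h

theorem sum_mu {m : ℕ} : ∑ k : Fin m, mu k k = 1 := by
  ext p q
  rw [sum_entry', Finset.sum_eq_single p, mu_apply, CStarMatrix.one_apply]
  · by_cases h : p = q
    · rw [if_pos ⟨rfl, h.symm⟩, if_pos h]
    · rw [if_neg fun h' => h h'.2.symm, if_neg h]
  · intro y _ hy
    rw [mu_apply, if_neg fun h => hy h.1.symm]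
  · intro h
    exact absurd (Finset.mem_univ _) h

/-! ## The compression -/

/-- The compression to a matrix algebra. -/
def phi (τ : A →ₗ[ℂ] ℂ) {m : ℕ} (i0 : Fin m) (j : CStarMatrix (Fin m) (Fin m) ℂ →⋆ₐ[ℂ] A) :
    A →ₗ[ℂ] CStarMatrix (Fin m) (Fin m) ℂ where
  toFun a := CStarMatrix.ofMatrix fun k l => (m : ℂ) * τ (j (mu i0 k) * a * j (mu l i0))
  map_add' a b := by
    ext k l
    show (m : ℂ) * τ (j (mu i0 k) * (a + b) * j (mu l i0)) = (m : ℂ) * τ (j (mu i0 k) * a * j (mu l i0)) +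
      (m : ℂ) * τ (j (mu i0 k) * b * j (mu l i0))
    rw [mul_add, add_mul, map_add, mul_add]
  map_smul' r a := by
    ext k l
    show (m : ℂ) * τ (j (mu i0 k) * (r • a) * j (mu l i0)) =
      r * ((m : ℂ) * τ (j (mu i0 k) * a * j (mu l i0)))
    rw [mul_smul_comm, smul_mul_assoc, map_smul, smul_eq_mul]
    ring

variable (τ : A →ₗ[ℂ] ℂ) {m : ℕ} (i0 : Fin m) (j : CStarMatrix (Fin m) (Fin m) ℂ →⋆ₐ[ℂ] A)

theorem phi_apply (a : A) (k l : Fin m) :
    phi τ i0 j a k l = (m : ℂ) * τ (j (mu i0 k) * a * j (mu l i0)) := rfl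

theorem tau_mu (h1 : τ 1 = 1) (h2 : ∀ a b, τ (a * b) = τ (b * a)) :
    (m : ℂ) * τ (j (mu i0 i0)) = 1 := by
  have h3 : ∀ k, τ (j (mu k k)) = τ (j (mu i0 i0)) := fun k => by
    rw [← mu_mu k i0 k, map_mul, h2, ← map_mul, mu_mu]
  have h4 : ∑ k : Fin m, τ (j (mu k k)) = 1 := by
    rw [← map_sum, ← map_sum, sum_mu, map_one, h1]
  rw [← h4, Finset.sum_congr rfl fun k _ => h3 k, Finset.sum_const, Finset.card_univ,
    Fintype.card_fin, nsmul_eq_mul]

theorem phi_j (h1 : τ 1 = 1) (h2 : ∀ a b, τ (a * b) = τ (b * a))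
    (x : CStarMatrix (Fin m) (Fin m) ℂ) : phi τ i0 j (j x) = x := by
  ext k l
  rw [phi_apply, ← map_mul, ← map_mul, mu_x_mu, map_smul, map_smul, smul_eq_mul]
  have h3 := tau_mu τ i0 j h1 h2
  linear_combination (x k l) * h3

theorem tau_sum (h1 : τ 1 = 1) (h2 : ∀ a b, τ (a * b) = τ (b * a)) (z : Fin m → ℂ) :
    (m : ℂ) * τ (star (∑ p, z p • j (mu p i0)) * ∑ p, z p • j (mu p i0)) =
      ((∑ p, ‖z p‖ ^ 2 : ℝ) : ℂ) := by
  have h3 : star (∑ p, z p • j (mu p i0)) * ∑ p, z p • j (mu p i0) =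
      ∑ p, ((‖z p‖ ^ 2 : ℝ) : ℂ) • j (mu i0 i0) := by
    rw [star_sum, Finset.sum_mul]
    refine Finset.sum_congr rfl fun p _ => ?_
    rw [Finset.mul_sum, Finset.sum_eq_single p]
    · rw [star_smul, ← map_star, star_mu, smul_mul_assoc, mul_smul_comm, ← map_mul, mu_mu,
        smul_smul]
      congr 1
      rw [Complex.ofReal_pow, ← Complex.conj_mul']
      rfl
    · intro q _ hq
      rw [star_smul, ← map_star, star_mu, smul_mul_assoc, mul_smul_comm, ← map_mul,
        mu_mu_ne _ _ _ _ hq.symm, map_zero, smul_zero, smul_zero]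
    · intro h
      exact absurd (Finset.mem_univ _) h
  rw [h3, map_sum, Finset.mul_sum]
  push_cast
  refine Finset.sum_congr rfl fun p _ => ?_
  rw [map_smul, smul_eq_mul]
  have h4 := tau_mu τ i0 j h1 h2
  linear_combination ((‖z p‖ : ℂ) ^ 2) * h4

theorem phi_norm (h1 : τ 1 = 1) (h2 : ∀ a b, τ (a * b) = τ (b * a))
    (hf : ∀ b, 0 ≤ τ (star b * b)) (a : A) : ‖phi τ i0 j a‖ ≤ ‖a‖ := by
  refine Pool.Agent.Helper18.CAR.mn (Fin m) (phi τ i0 j a) ‖a‖ (norm_nonneg a) fun z w => ?_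
  set ζ := ∑ p, z p • j (mu p i0) with hζ
  set ω := ∑ p, w p • j (mu p i0) with hω
  have e1 : ∑ p, ∑ q, conj (z p) * phi τ i0 j a p q * w q =
      (m : ℂ) * τ (star ζ * (a * ω)) := by
    rw [hζ, hω, star_sum, Finset.sum_mul, map_sum, Finset.mul_sum]
    refine Finset.sum_congr rfl fun p _ => ?_
    rw [Finset.mul_sum, Finset.mul_sum, map_sum, Finset.mul_sum]
    refine Finset.sum_congr rfl fun q _ => ?_
    rw [phi_apply, star_smul, ← map_star, star_mu, mul_smul_comm, mul_smul_comm, smul_mul_assoc,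
      map_smul, map_smul, smul_eq_mul, smul_eq_mul, ← mul_assoc (j (mu i0 p)), RCLike.star_def]
    ring
  rw [e1]
  have hm0 : (0 : ℝ) ≤ (m : ℝ) := Nat.cast_nonneg m
  have e2 : ∀ v : Fin m → ℂ, (m : ℝ) * (τ (star (∑ p, v p • j (mu p i0)) *
      ∑ p, v p • j (mu p i0))).re = ∑ p, ‖v p‖ ^ 2 := by
    intro v
    have h := congrArg Complex.re (tau_sum τ i0 j h1 h2 v)
    rw [Complex.ofReal_re] at h
    rw [← h, ← Complex.ofReal_natCast, Complex.re_ofReal_mul]
  have h3 := cs2 τ hf ζ (a * ω)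
  have h4 := bd2 τ hf a ω
  have e3 := e2 z
  have e4 := e2 w
  rw [← hζ] at e3
  rw [← hω] at e4
  have h5 : 0 ≤ (τ (star ζ * ζ)).re := (Complex.le_def.1 (hf ζ)).1
  have h6 : 0 ≤ (τ (star ω * ω)).re := (Complex.le_def.1 (hf ω)).1
  apply le_of_sq_le_sq
  · rw [norm_mul, Complex.norm_natCast, mul_pow, mul_pow, mul_pow,
      Real.sq_sqrt (Finset.sum_nonneg fun _ _ => sq_nonneg _),
      Real.sq_sqrt (Finset.sum_nonneg fun _ _ => sq_nonneg _), ← e3, ← e4]
    calc (m : ℝ) ^ 2 * ‖τ (star ζ * (a * ω))‖ ^ 2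
        = (m : ℝ) ^ 2 * (‖τ (star ζ * (a * ω))‖ * ‖τ (star ζ * (a * ω))‖) := by ring
      _ ≤ (m : ℝ) ^ 2 * ((τ (star ζ * ζ)).re * (‖a‖ ^ 2 * (τ (star ω * ω)).re)) := by
          exact mul_le_mul_of_nonneg_left (h3.trans (mul_le_mul_of_nonneg_left h4 h5))
            (sq_nonneg _)
      _ = _ := by ring
  · positivity

theorem phi_cp (hf : ∀ b, 0 ≤ τ (star b * b)) : IsCP (phi τ i0 j) := by
  intro k a
  let M : Matrix (Fin k × Fin m) (Fin k × Fin m) ℂ :=
    fun P Q => phi τ i0 j ((star a * a) P.1 Q.1) P.2 Q.2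
  have hM1 : ∀ P Q, M P Q = phi τ i0 j ((star a * a) P.1 Q.1) P.2 Q.2 := fun _ _ => rfl
  have hM : M.PosSemidef := by
    refine Matrix.PosSemidef.of_dotProduct_mulVec_nonneg ?_ fun x => ?_
    · ext P Q
      rw [Matrix.conjTranspose_apply, hM1, hM1, phi_apply, phi_apply, RCLike.star_def, map_mul,
        ← Helper20.CR.herm τ hf, star_mul, star_mul, ← map_star, ← map_star, star_mu, star_mu,
        ← CStarMatrix.star_apply, star_mul, star_star, mul_assoc]
      congr 1
      simp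
    · let z : Fin k → A := fun r => ∑ Q : Fin k × Fin m, x Q • (a r Q.1 * j (mu Q.2 i0))
      have e1 : star x ⬝ᵥ (M.mulVec x) = (m : ℂ) * ∑ r, τ (star (z r) * z r) := by
        rw [dotProduct, Finset.mul_sum]
        simp only [Matrix.mulVec, dotProduct, Finset.mul_sum]
        have e2 : ∀ r, τ (star (z r) * z r) = ∑ P : Fin k × Fin m, ∑ Q : Fin k × Fin m,
            star (x P) * x Q * τ (j (mu i0 P.2) * (star (a r P.1) * a r Q.1) * j (mu Q.2 i0)) := by
          intro r
          show τ (star (∑ Q : Fin k × Fin m, x Q • (a r Q.1 * j (mu Q.2 i0))) *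
            ∑ Q : Fin k × Fin m, x Q • (a r Q.1 * j (mu Q.2 i0))) = _
          rw [star_sum, Finset.sum_mul, map_sum]
          refine Finset.sum_congr rfl fun P _ => ?_
          rw [Finset.mul_sum, map_sum]
          refine Finset.sum_congr rfl fun Q _ => ?_
          rw [star_smul, star_mul, ← map_star, star_mu, smul_mul_assoc, mul_smul_comm, map_smul,
            map_smul, smul_eq_mul, smul_eq_mul, mul_assoc (j (mu i0 P.2)),
            ← mul_assoc (star (a r P.1)), ← mul_assoc (j (mu i0 P.2)), mul_assoc (star (x P))]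
        simp only [e2, Finset.mul_sum]
        symm
        rw [Finset.sum_comm]
        refine Finset.sum_congr rfl fun P _ => ?_
        rw [Finset.sum_comm]
        refine Finset.sum_congr rfl fun Q _ => ?_
        symm
        rw [hM1, phi_apply, CStarMatrix.mul_apply, Finset.mul_sum, Finset.sum_mul, map_sum,
          Finset.mul_sum, Finset.sum_mul, Finset.mul_sum]
        refine Finset.sum_congr rfl fun r _ => ?_
        rw [CStarMatrix.star_apply, Pi.star_apply]
        ring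
      rw [e1]
      exact mul_nonneg (by exact_mod_cast Nat.zero_le m) (Finset.sum_nonneg fun r _ => hf (z r))
  obtain ⟨B, hB⟩ := by
    open scoped MatrixOrder in
    exact CStarAlgebra.nonneg_iff_eq_star_mul_self.1 hM.nonneg
  refine ⟨CStarMatrix.ofMatrix fun p q => CStarMatrix.ofMatrix fun s t => B (p, s) (q, t), ?_⟩
  ext p q s t
  rw [CStarMatrix.map_apply, ← hM1 (p, s) (q, t), hB, CStarMatrix.mul_apply, sum_entry',
    Matrix.mul_apply, Fintype.sum_prod_type]
  refine Finset.sum_congr rfl fun r _ => ?_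
  rw [CStarMatrix.mul_apply]
  rfl

end

end Pool.Agent.Helper82.BD
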