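import Pool.Agent.Helper82.BD.Pinch

/-!
# Project BD (MP_d97caa_an): close projections, projections in dense unions
-/

set_option autoImplicit false

open Filter Topology

namespace Pool.Agent.Helper82.BD

noncomputable section

variable {A : Type} [CStarAlgebra A]

/-! ## Close projections are unitarily equivalent -/

theorem corner_id (p q : A) (hp2 : p * p = p) (hq2 : q * q = q) :
    (p * q + (1 - p) * (1 - q)) * (q * p + (1 - q) * (1 - p)) =
      1 - (p - q) * (p - q) := by
  have hq3 : q * (1 - q) = 0 := by rw [mul_sub, mul_one, hq2, sub_self]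
  have hq4 : (1 - q) * q = 0 := by rw [sub_mul, one_mul, hq2, sub_self]
  have hq5 : (1 - q) * (1 - q) = 1 - q := by rw [mul_sub, mul_one, hq4, sub_zero]
  have h1 : (p * q + (1 - p) * (1 - q)) * (q * p + (1 - q) * (1 - p)) =
      p * (q * q) * p + p * (q * (1 - q)) * (1 - p) + (1 - p) * ((1 - q) * q) * p +
        (1 - p) * ((1 - q) * (1 - q)) * (1 - p) := by
    simp only [add_mul, mul_add, mul_assoc]
    abel
  rw [h1, hq2, hq3, hq4, hq5]
  have h2 : p * q * p + p * 0 * (1 - p) + (1 - p) * 0 * p + (1 - p) * (1 - q) * (1 - p) =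
      1 - p - q + p * q + q * p + (p * p - p) := by
    noncomm_ring
  have h3 : (1 : A) - (p - q) * (p - q) =
      1 - p - q + p * q + q * p + (p - p * p) + (q - q * q) := by
    noncomm_ring
  rw [h2, h3, hp2, hq2]
  abel

theorem exists_unitary (p q : A) (hp1 : star p = p) (hp2 : p * p = p) (hq1 : star q = q)
    (hq2 : q * q = q) (h : ‖p - q‖ < 1) :
    ∃ u : A, star u * u = 1 ∧ u * star u = 1 ∧ u * p = q * u ∧
      ∀ x, x * p = p * x → x * q = q * x → x * u = u * x := by
  letI := CStarAlgebra.spectralOrder A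
  haveI := CStarAlgebra.spectralOrderedRing A
  set w : A := q * p + (1 - q) * (1 - p) with hw
  set m : A := 1 - (p - q) * (p - q) with hm
  have e3 : star w = p * q + (1 - p) * (1 - q) := by
    rw [hw]
    simp only [star_add, star_sub, star_mul, star_one, hp1, hq1]
  have k1 : star w * w = m := by
    rw [e3, hw, hm, corner_id p q hp2 hq2]
  have k2 : w * star w = m := by
    rw [e3, hw, corner_id q p hq2 hp2, hm]
    congr 1
    noncomm_ring
  have hwm : w * m = m * w := by
    rw [← k1, ← mul_assoc, k2, k1]
  have hms : star m = m := by rw [← k1, star_mul, star_star]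
  have hwp : w * p = q * w := by
    have h1 : (1 - p) * p = 0 := by rw [sub_mul, one_mul, hp2, sub_self]
    have h2 : q * (1 - q) = 0 := by rw [mul_sub, mul_one, hq2, sub_self]
    rw [hw, add_mul, mul_add, mul_assoc (1 - q), h1, mul_zero, add_zero, ← mul_assoc q (1 - q), h2,
      zero_mul, add_zero, mul_assoc, hp2, ← mul_assoc, hq2]
  have hmp : m * p = p * m := by
    have h1 : m * p = p - (p * (p * p) - q * (p * p) - p * (q * p) + (q * q) * p) := by
      rw [hm]
      simp only [sub_mul, mul_sub, one_mul, mul_assoc]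
      abel
    have h2 : p * m = p - ((p * p) * p - (p * p) * q - p * (q * p) + p * (q * q)) := by
      rw [hm]
      simp only [sub_mul, mul_sub, mul_one, mul_assoc]
      abel
    rw [h1, h2, hp2, hq2, hp2]
    abel
  -- the inverse square root
  have hu : IsUnit m := by
    have h1 : ‖(p - q) * (p - q)‖ < 1 := by
      refine (norm_mul_le _ _).trans_lt ?_
      nlinarith [norm_nonneg (p - q)]
    exact ⟨Units.oneSub _ h1, rfl⟩
  have hm0 : 0 ≤ m := by
    rw [← k1]
    exact star_mul_self_nonneg w
  have hpos : ∀ x ∈ spectrum ℝ m, 0 < x := by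
    intro x hx
    have h1 : 0 ≤ x := spectrum_nonneg_of_nonneg hm0 hx
    rcases h1.lt_or_eq with h2 | h2
    · exact h2
    · exfalso
      rw [← h2] at hx
      exact (spectrum.zero_notMem_iff ℝ).2 hu hx
  have hsa : IsSelfAdjoint m := hms
  set r : A := cfc (fun x : ℝ => (Real.sqrt x)⁻¹) m with hr
  have hcont : ContinuousOn (fun x : ℝ => (Real.sqrt x)⁻¹) (spectrum ℝ m) := by
    refine ContinuousOn.inv₀ (Real.continuous_sqrt.continuousOn) fun x hx => ?_
    exact (Real.sqrt_pos.2 (hpos x hx)).ne'
  have hrs : star r = r := by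
    have h1 : IsSelfAdjoint r := cfc_predicate _ m
    exact h1
  have hrrm : r * r * m = 1 := by
    have h1 : r * r * m = cfc (fun x : ℝ => (Real.sqrt x)⁻¹ * (Real.sqrt x)⁻¹ * x) m := by
      rw [cfc_mul (fun x : ℝ => (Real.sqrt x)⁻¹ * (Real.sqrt x)⁻¹) (fun x : ℝ => x) m
        (hcont.mul hcont) continuousOn_id, cfc_mul (fun x : ℝ => (Real.sqrt x)⁻¹)
        (fun x : ℝ => (Real.sqrt x)⁻¹) m hcont hcont, cfc_id' ℝ m hsa]
    rw [h1]
    have h2 : cfc (fun x : ℝ => (Real.sqrt x)⁻¹ * (Real.sqrt x)⁻¹ * x) m =
        cfc (fun _ : ℝ => (1 : ℝ)) m := by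
      refine cfc_congr fun x hx => ?_
      have h3 := hpos x hx
      have h4 := Real.mul_self_sqrt h3.le
      have h5 := (Real.sqrt_pos.2 h3).ne'
      show (Real.sqrt x)⁻¹ * (Real.sqrt x)⁻¹ * x = 1
      field_simp
      nlinarith
    rw [h2, cfc_const_one ℝ m hsa]
  have hcomm : ∀ b, m * b = b * m → r * b = b * r := fun b hb => by
    have h1 : Commute m b := hb
    exact (h1.cfc_real (fun x : ℝ => (Real.sqrt x)⁻¹)).eq
  have hrm : r * m = m * r := hcomm m rfl
  have hrw : r * w = w * r := hcomm w hwm.symm
  have hrp : r * p = p * r := hcomm p hmp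
  refine ⟨w * r, ?_, ?_, ?_, fun x hx1 hx2 => ?_⟩
  · rw [star_mul, hrs, mul_assoc r, ← mul_assoc (star w), k1, ← hrm, ← mul_assoc, hrrm]
  · have h1 : w * r * star (w * r) = r * r * (w * star w) := by
      rw [star_mul, hrs, ← hrw]
      rw [mul_assoc r w, ← mul_assoc w r, ← hrw, ← mul_assoc, ← mul_assoc, ← mul_assoc]
    rw [h1, k2, hrrm]
  · rw [mul_assoc, hrp, ← mul_assoc, hwp, mul_assoc]
  · have h1 : x * w = w * x := by
      have h2 : (1 - q) * (1 - p) = 1 - p - q + q * p := by noncomm_ring
      have h3 : x * (q * p) = q * p * x := by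
        rw [← mul_assoc, hx2, mul_assoc, hx1, mul_assoc]
      rw [hw, h2, mul_add, add_mul, mul_add, add_mul, mul_sub, mul_sub, sub_mul, sub_mul, h3, hx1,
        hx2, mul_one, one_mul]
    have h4 : m * x = x * m := by
      have h5 : star x * w = w * star x := by
        have g1 : star x * p = p * star x := by
          have := congrArg star hx1
          rw [star_mul, star_mul, hp1] at this
          exact this.symm
        have g2 : star x * q = q * star x := by
          have := congrArg star hx2
          rw [star_mul, star_mul, hq1] at this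
          exact this.symm
        have h2 : (1 - q) * (1 - p) = 1 - p - q + q * p := by noncomm_ring
        have h3 : star x * (q * p) = q * p * star x := by
          rw [← mul_assoc, g2, mul_assoc, g1, mul_assoc]
        rw [hw, h2, mul_add, add_mul, mul_add, add_mul, mul_sub, mul_sub, sub_mul, sub_mul, h3, g1,
          g2, mul_one, one_mul]
      have h6 : x * star w = star w * x := by
        have := congrArg star h5
        rw [star_mul, star_mul, star_star] at this
        exact this.symm
      rw [← k1, mul_assoc, ← h1, ← mul_assoc, ← h6, mul_assoc]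
    rw [← mul_assoc, h1, mul_assoc, ← hcomm x h4, mul_assoc]

end

end Pool.Agent.Helper82.BD
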