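import Pool.Agent.Helper39.CR.CarDefs

/-!
# Commutants in C*-algebras

Project BD (MP_d97caa_an): definitions for the statement on commutants of self-adjoint elements of
the CAR algebra.
-/

namespace Pool.Agent.Helper82.BD

noncomputable section

instance isClosed_centralizer {A : Type} [CStarAlgebra A] (S : Set A) :
    IsClosed ((NonUnitalStarSubalgebra.centralizer ℂ S : NonUnitalStarSubalgebra ℂ A) : Set A) := by
  rw [NonUnitalStarSubalgebra.coe_centralizer]
  exact Set.isClosed_centralizer _

/-- The commutant `{a | a x = x a, a x* = x* a for all x ∈ S}` of `S` and its adjoint, as a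
C*-algebra. -/
def Commutant {A : Type} [CStarAlgebra A] (S : Set A) : Type :=
  ↥(NonUnitalStarSubalgebra.centralizer ℂ S)

instance {A : Type} [CStarAlgebra A] (S : Set A) : NonUnitalCStarAlgebra (Commutant S) :=
  (inferInstance : NonUnitalCStarAlgebra ↥(NonUnitalStarSubalgebra.centralizer ℂ S))

end

end Pool.Agent.Helper82.BD
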