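import Pool.Agent.Helper39.CR.GoalsT

/-!
# Project BD (MP_d97caa_an): the grading by depth
-/

set_option autoImplicit false

open scoped ComplexOrder ZeroAtInfty
open TopologicalSpace

namespace Pool.Agent.Helper82.BD

open Pool.Agent.Helper34.CAR Pool.Agent.Helper39.CR

noncomputable section

variable {B : Type} [CStarAlgebra B] {θ : B →⋆ₐ[ℂ] B} (s : Sys B θ)

/-- The depth of an index: the number of initial coordinates that are special. -/
def dep : ∀ i : ℕ, s.S i → ℕ
  | 0, _ => 0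
  | i + 1, x => if (s.e i x).1 = s.top i ∧ (s.e i x).2 = s.c0 i then i + 1
      else dep i (s.e i x).1

theorem dep_succ (i : ℕ) (x : s.S (i + 1)) : dep s (i + 1) x =
    if (s.e i x).1 = s.top i ∧ (s.e i x).2 = s.c0 i then i + 1 else dep s i (s.e i x).1 := rfl

theorem dep_le (i : ℕ) (x : s.S i) : dep s i x ≤ i := by
  induction i with
  | zero => exact le_refl 0
  | succ i ih =>
    rw [dep_succ]
    split_ifs
    · exact le_refl _
    · exact (ih _).trans (Nat.le_succ i)

theorem top_iff (i : ℕ) (x : s.S (i + 1)) :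
    x = s.top (i + 1) ↔ (s.e i x).1 = s.top i ∧ (s.e i x).2 = s.c0 i := by
  have h : s.top (i + 1) = (s.e i).symm (s.top i, s.c0 i) := rfl
  rw [h, Equiv.eq_symm_apply]
  constructor
  · intro h
    rw [h]
    exact ⟨rfl, rfl⟩
  · rintro ⟨h1, h2⟩
    exact Prod.ext h1 h2

theorem dep_eq_iff (i : ℕ) (x : s.S i) : dep s i x = i ↔ x = s.top i := by
  induction i with
  | zero =>
    constructor
    · intro _
      exact s.uniq x
    · intro _
      rfl
  | succ i ih =>
    rw [dep_succ, top_iff]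
    split_ifs with h
    · exact ⟨fun _ => h, fun _ => rfl⟩
    · constructor
      · intro h1
        have := dep_le s i (s.e i x).1
        omega
      · intro h1
        exact absurd h1 h

theorem le_dep_succ (i j : ℕ) (hj : j ≤ i) (x : s.S (i + 1)) :
    j ≤ dep s (i + 1) x ↔ j ≤ dep s i (s.e i x).1 := by
  rw [dep_succ]
  split_ifs with h
  · constructor
    · intro _
      have : dep s i (s.e i x).1 = i := (dep_eq_iff s i _).2 h.1
      omega
    · intro _
      omega
  · exact Iff.rfl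

theorem κ_mem_dep (i : ℕ) (a : s.A i) (ha : a ∈ grd B (dep s i)) :
    s.κ i a ∈ grd B (dep s (i + 1)) := by
  intro x y hxy
  rw [Sys.κ_apply]
  obtain ⟨-, -, -, -, -, h5, -⟩ := s.step i
  by_cases h1 : dep s i (s.e i x).1 = dep s i (s.e i y).1
  · rw [dep_succ, dep_succ] at hxy
    by_cases hx : (s.e i x).1 = s.top i ∧ (s.e i x).2 = s.c0 i
    · by_cases hy : (s.e i y).1 = s.top i ∧ (s.e i y).2 = s.c0 i
      · rw [if_pos hx, if_pos hy] at hxy
        exact absurd rfl hxy
      · have h2 : dep s i (s.e i x).1 = i := (dep_eq_iff s i _).2 hx.1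
        have h3 : (s.e i y).1 = s.top i := (dep_eq_iff s i _).1 (by rw [← h1, h2])
        have h4 : (s.e i y).2 ≠ s.c0 i := fun h => hy ⟨h3, h⟩
        exact h5 _ _ _ (by rw [hx.2]; exact h4.symm) (Or.inl hx.2)
    · by_cases hy : (s.e i y).1 = s.top i ∧ (s.e i y).2 = s.c0 i
      · have h2 : dep s i (s.e i y).1 = i := (dep_eq_iff s i _).2 hy.1
        have h3 : (s.e i x).1 = s.top i := (dep_eq_iff s i _).1 (by rw [h1, h2])
        have h4 : (s.e i x).2 ≠ s.c0 i := fun h => hx ⟨h3, h⟩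
        exact h5 _ _ _ (by rw [hy.2]; exact h4) (Or.inr (Or.inr (Or.inl hy.2)))
      · rw [if_neg hx, if_neg hy] at hxy
        exact absurd h1 hxy
  · rw [ha _ _ h1, map_zero, Mt.zero_apply]

/-- The connecting maps of the graded parts. -/
def kdep (i : ℕ) : Gd B (dep s i) →⋆ₙₐ[ℂ] Gd B (dep s (i + 1)) where
  toFun a := ⟨s.κ i a.1, κ_mem_dep s i a.1 a.2⟩
  map_smul' c a := Subtype.ext (map_smul (s.κ i) c a.1)
  map_zero' := Subtype.ext (map_zero (s.κ i))
  map_add' a b := Subtype.ext (map_add (s.κ i) a.1 b.1)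
  map_mul' a b := Subtype.ext (map_mul (s.κ i) a.1 b.1)
  map_star' a := Subtype.ext (map_star (s.κ i) a.1)

/-! ## The diagonal projections -/

/-- The projection onto the indices of depth at least `j`. -/
def Dg (i j : ℕ) : s.A i := Mt.of fun x y => if x = y ∧ j ≤ dep s i x then 1 else 0

theorem Dg_apply (i j : ℕ) (x y : s.S i) :
    Dg s i j x y = if x = y ∧ j ≤ dep s i x then 1 else 0 := rfl

theorem κ_Dg (i j : ℕ) (hj : j ≤ i) : s.κ i (Dg s i j) = Dg s (i + 1) j := by
  refine Mt.ext fun x y => ?_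
  rw [Sys.κ_apply, Dg_apply, Dg_apply]
  by_cases h1 : (s.e i x).1 = (s.e i y).1 ∧ j ≤ dep s i (s.e i x).1
  · rw [if_pos h1, map_one, Mt.one_apply]
    by_cases h2 : (s.e i x).2 = (s.e i y).2
    · rw [if_pos h2, if_pos ⟨(s.e i).injective (Prod.ext h1.1 h2), (le_dep_succ s i j hj x).2 h1.2⟩]
    · rw [if_neg h2, if_neg fun h => h2 (by rw [h.1])]
  · rw [if_neg h1, map_zero, Mt.zero_apply, if_neg]
    rintro ⟨h2, h3⟩
    exact h1 ⟨by rw [h2], (le_dep_succ s i j hj x).1 h3⟩

theorem star_Dg (i j : ℕ) : star (Dg s i j) = Dg s i j := by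
  refine Mt.ext fun x y => ?_
  rw [Mt.star_apply, Dg_apply, Dg_apply]
  by_cases h : x = y
  · subst h
    split_ifs <;> simp
  · rw [if_neg fun h' => h h'.1.symm, if_neg fun h' => h h'.1, star_zero]

theorem Dg_mul (i j : ℕ) (a : s.A i) (x y : s.S i) :
    (Dg s i j * a) x y = if j ≤ dep s i x then a x y else 0 := by
  rw [Mt.mul_apply, Finset.sum_eq_single x]
  · rw [Dg_apply]
    by_cases h : j ≤ dep s i x
    · rw [if_pos ⟨rfl, h⟩, if_pos h, one_mul]
    · rw [if_neg fun h' => h h'.2, if_neg h, zero_mul]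
  · intro k _ hk
    rw [Dg_apply, if_neg fun h => hk h.1.symm, zero_mul]
  · intro h
    exact absurd (Finset.mem_univ x) h

theorem mul_Dg (i j : ℕ) (a : s.A i) (x y : s.S i) :
    (a * Dg s i j) x y = if j ≤ dep s i y then a x y else 0 := by
  rw [Mt.mul_apply, Finset.sum_eq_single y]
  · rw [Dg_apply]
    by_cases h : j ≤ dep s i y
    · rw [if_pos ⟨rfl, h⟩, if_pos h, mul_one]
    · rw [if_neg fun h' => h h'.2, if_neg h, mul_zero]
  · intro k _ hk
    rw [Dg_apply, if_neg fun h => hk h.1, mul_zero]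
  · intro h
    exact absurd (Finset.mem_univ y) h

theorem Dg_mul_Dg (i j k : ℕ) : Dg s i j * Dg s i k = Dg s i (max j k) := by
  refine Mt.ext fun x y => ?_
  rw [Dg_mul, Dg_apply, Dg_apply]
  by_cases h1 : j ≤ dep s i x
  · rw [if_pos h1]
    by_cases h2 : x = y ∧ k ≤ dep s i x
    · rw [if_pos h2, if_pos ⟨h2.1, max_le h1 h2.2⟩]
    · rw [if_neg h2, if_neg fun h => h2 ⟨h.1, (le_max_right j k).trans h.2⟩]
  · rw [if_neg h1, if_neg fun h => h1 ((le_max_left j k).trans h.2)]

theorem comm_Dg (i j : ℕ) (a : s.A i) (ha : a ∈ grd B (dep s i)) :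
    a * Dg s i j = Dg s i j * a := by
  refine Mt.ext fun x y => ?_
  rw [Dg_mul, mul_Dg]
  by_cases h : dep s i x = dep s i y
  · rw [h]
  · rw [ha x y h, ite_self, ite_self]

end

end Pool.Agent.Helper82.BD
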