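import Pool.Agent.Helper82.BD.Lim
import Pool.Agent.Helper82.BD.Defs
import Pool.Agent.Helper10.CAR.RET
import Pool.Agent.Helper39.CR.Main3

/-!
# Project BD (MP_d97caa_an): theories of the commutant
-/

set_option autoImplicit false

open scoped ComplexOrder ZeroAtInfty Topology
open TopologicalSpace Filter

namespace Pool.Agent.Helper82.BD

open Pool.Agent.Helper34.CAR Pool.Agent.Helper39.CR

noncomputable section

variable {B : Type} [CStarAlgebra B] {θ : B →⋆ₐ[ℂ] B} (s : Sys B θ)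
variable {L : Type} [CStarAlgebra L] (ι : ∀ i, s.A i →⋆ₐ[ℂ] L)

/-- The commutant of `h` and its adjoint. -/
abbrev cen {A : Type} [CStarAlgebra A] (h : A) : NonUnitalStarSubalgebra ℂ A :=
  NonUnitalStarSubalgebra.centralizer ℂ {h}

theorem mem_cen {A : Type} [CStarAlgebra A] (h a : A) (hs : star h = h) :
    a ∈ cen h ↔ a * h = h * a := by
  rw [NonUnitalStarSubalgebra.mem_centralizer_iff]
  constructor
  · intro h1
    exact (h1 h rfl).1.symm
  · rintro h1 g rfl
    rw [hs]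
    exact ⟨h1.symm, h1.symm⟩

theorem star_h (h : L) (hh : HasSum (fun n : ℕ => (1 / 4 : ℂ) ^ n • gg s ι n) h) :
    star h = h := by
  have h1 := hh.star
  have h2 : (fun n : ℕ => star ((1 / 4 : ℂ) ^ n • gg s ι n)) =
      fun n : ℕ => (1 / 4 : ℂ) ^ n • gg s ι n := by
    funext n
    rw [star_smul, star_gg, star_pow]
    congr 2
    simp
  rw [h2] at h1
  exact h1.unique hh

theorem mem_comm_iff (hl : IsLim s L ι) (h : L)
    (hh : HasSum (fun n : ℕ => (1 / 4 : ℂ) ^ n • gg s ι n) h) (a : L) :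
    a ∈ cen h ↔ ∀ j, a * ff s ι j = ff s ι j * a := by
  rw [mem_cen h a (star_h s ι h hh),
    comm_iff (gg s ι) (star_gg s ι) (gg_idem s ι hl) (gg_orth s ι hl) h hh a,
    comm_gg_iff s ι hl a]

/-- The maps of the graded parts into the commutant. -/
def uu (hl : IsLim s L ι) (h : L)
    (hh : HasSum (fun n : ℕ => (1 / 4 : ℂ) ^ n • gg s ι n) h) (i : ℕ) :
    Gd B (dep s i) →⋆ₙₐ[ℂ] ↥(cen h) where
  toFun a := ⟨ι i a.1, (mem_comm_iff s ι hl h hh _).2 (comm_of_grd s ι hl i a.1 a.2)⟩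
  map_smul' c a := Subtype.ext (map_smul (ι i) c a.1)
  map_zero' := Subtype.ext (map_zero (ι i))
  map_add' a b := Subtype.ext (map_add (ι i) a.1 b.1)
  map_mul' a b := Subtype.ext (map_mul (ι i) a.1 b.1)
  map_star' a := Subtype.ext (map_star (ι i) a.1)

variable (hl : IsLim s L ι) (h : L)
  (hh : HasSum (fun n : ℕ => (1 / 4 : ℂ) ^ n • gg s ι n) h)

theorem uu_coe (i : ℕ) (a : Gd B (dep s i)) : ((uu s ι hl h hh i a : ↥(cen h)) : L) = ι i a.1 :=
  rfl

theorem uu_inj (i : ℕ) : Function.Injective (uu s ι hl h hh i) := by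
  intro a b hab
  have h1 : ι i a.1 = ι i b.1 := by
    rw [← uu_coe s ι hl h hh, ← uu_coe s ι hl h hh, hab]
  exact Subtype.ext (hl.inj i h1)

theorem uu_comp (i : ℕ) (a : Gd B (dep s i)) :
    uu s ι hl h hh (i + 1) (kdep s i a) = uu s ι hl h hh i a := by
  apply Subtype.ext
  rw [uu_coe, uu_coe]
  exact hl.comp i a.1

theorem uu_dense : Dense (⋃ i, Set.range (uu s ι hl h hh i)) := by
  rw [Metric.dense_iff]
  intro b r hr
  obtain ⟨i, a, ha, hb⟩ := approx_comm s ι hl b.1 ((mem_comm_iff s ι hl h hh _).1 b.2) r hr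
  refine ⟨uu s ι hl h hh i ⟨a, ha⟩, ?_, Set.mem_iUnion.2 ⟨i, ⟨a, ha⟩, rfl⟩⟩
  rw [Metric.mem_ball, dist_comm, dist_eq_norm]
  exact hb

include hl hh in
theorem zero_back [SeparableSpace B] [SeparableSpace L] (hTGR : S_TGR) (T : Theory)
    (hB : T.Zero B) : T.Zero ↥(cen h) := by
  intro i y
  have hG : ∀ (i : ZMod 2) (k : ℕ) (y : T.F i (Gd B (dep s k))), y = 0 := by
    intro i k y
    exact (hTGR T i B (s.S k) ℕ (dep s k)).2.2 y fun x => hB i _
  obtain ⟨-, d, -, hd⟩ := T.milnor i ↥(cen h) (fun k => Gd B (dep s k)) (kdep s)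
    (uu s ι hl h hh) (uu_inj s ι hl h hh) (uu_comp s ι hl h hh) (uu_dense s ι hl h hh)
  obtain ⟨z, hz⟩ := (hd y).1 fun k => hG i k _
  have h0 : z = 0 := by
    funext k
    exact hG (i + 1) k (z k)
  rw [← hz, h0, map_zero]

theorem dep_top (i : ℕ) : dep s i (s.top i) = i := (dep_eq_iff s i _).2 rfl

theorem top_mul (i : ℕ) (a b : s.A i) (ha : a ∈ grd B (dep s i)) :
    (a * b) (s.top i) (s.top i) = a (s.top i) (s.top i) * b (s.top i) (s.top i) := by
  rw [Mt.mul_apply, Finset.sum_eq_single (s.top i)]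
  · intro k _ hk
    rw [ha (s.top i) k, zero_mul]
    rw [dep_top]
    intro h1
    exact hk ((dep_eq_iff s i k).1 h1.symm)
  · intro h1
    exact absurd (Finset.mem_univ _) h1

theorem κ_top (i : ℕ) (a : s.A i) :
    s.κ i a (s.top (i + 1)) (s.top (i + 1)) = θ (a (s.top i) (s.top i)) := by
  obtain ⟨h1, h2⟩ := (top_iff s i (s.top (i + 1))).1 rfl
  obtain ⟨-, -, -, h3, -⟩ := s.step i
  rw [Sys.κ_apply, h1, h2, h3]

include hl hh in
theorem retract (hEXT : S_EXT) (hθ : ∀ b, θ (θ b) = b) :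
    ∃ (i₀ : B →⋆ₙₐ[ℂ] ↥(cen h)) (p : ↥(cen h) →⋆ₙₐ[ℂ] B), ∀ b, p (i₀ b) = b := by
  let f : ∀ i, Gd B (dep s i) →⋆ₙₐ[ℂ] B := fun i =>
    { toFun := fun a => Helper10.CAR.th θ i (a.1 (s.top i) (s.top i))
      map_smul' := fun c a => by
        show Helper10.CAR.th θ i ((c • a.1) (s.top i) (s.top i)) = _
        rw [Mt.smul_apply, map_smul]
        rfl
      map_zero' := by
        show Helper10.CAR.th θ i ((0 : s.A i) (s.top i) (s.top i)) = _
        rw [Mt.zero_apply, map_zero]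
      map_add' := fun a b => by
        show Helper10.CAR.th θ i ((a.1 + b.1) (s.top i) (s.top i)) = _
        rw [Mt.add_apply, map_add]
      map_mul' := fun a b => by
        show Helper10.CAR.th θ i ((a.1 * b.1) (s.top i) (s.top i)) = _
        rw [top_mul s i a.1 b.1 a.2, map_mul]
      map_star' := fun a => by
        show Helper10.CAR.th θ i ((star a.1) (s.top i) (s.top i)) = _
        rw [Mt.star_apply, map_star] }
  have hf : ∀ i (a : Gd B (dep s i)),
      f i a = Helper10.CAR.th θ i (a.1 (s.top i) (s.top i)) := fun _ _ => rfl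
  obtain ⟨F, hF⟩ := hEXT ↥(cen h) B (fun i => Gd B (dep s i)) (uu s ι hl h hh) f
    (uu_inj s ι hl h hh)
    (fun i x => by
      refine ⟨kdep s i x, uu_comp s ι hl h hh i x, ?_⟩
      rw [hf, hf]
      show (Helper10.CAR.th θ i) (θ (s.κ i x.1 (s.top (i + 1)) (s.top (i + 1)))) = _
      rw [κ_top, hθ])
    (uu_dense s ι hl h hh)
  refine ⟨(uu s ι hl h hh 0).comp (cd B (dep s 0) s.s0), F, fun b => ?_⟩
  show F (uu s ι hl h hh 0 (cd B (dep s 0) s.s0 b)) = b
  rw [hF, hf]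
  show (Mt.single s.s0 s.s0 b : s.A 0) s.s0 s.s0 = b
  rw [Mt.single_apply, if_pos ⟨rfl, rfl⟩]

end

end Pool.Agent.Helper82.BD
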