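import Pool.Agent.Helper82.BD.NucA
import Pool.Agent.Helper82.BD.Zero
import Pool.Agent.Helper39.CR.Parts6

/-!
# Project BD (MP_d97caa_an): nuclearity of the commutant
-/

set_option autoImplicit false

open scoped ComplexOrder ComplexConjugate Topology
open Filter

namespace Pool.Agent.Helper82.BD

open Pool.Agent.Helper34.CAR Pool.Agent.Helper39.CR

noncomputable section

/-! ## Pinching of matrices -/

section

variable {L : Type} [CStarAlgebra L] {k : ℕ}

/-- Diagonal matrices with one entry. -/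
def Dk (p : L) : Mt (Fin k) L := Mt.of fun i j => if i = j then p else 0

theorem Dk_apply (p : L) (i j : Fin k) : (Dk p : Mt (Fin k) L) i j = if i = j then p else 0 := rfl

theorem Dk_mul (p : L) (x : Mt (Fin k) L) (i j : Fin k) :
    (Dk p * x : Mt (Fin k) L) i j = p * x i j := by
  rw [Mt.mul_apply, Finset.sum_eq_single i]
  · rw [Dk_apply, if_pos rfl]
  · intro l _ hl
    rw [Dk_apply, if_neg hl.symm, zero_mul]
  · intro h
    exact absurd (Finset.mem_univ _) h

theorem mul_Dk (p : L) (x : Mt (Fin k) L) (i j : Fin k) :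
    (x * Dk p : Mt (Fin k) L) i j = x i j * p := by
  rw [Mt.mul_apply, Finset.sum_eq_single j]
  · rw [Dk_apply, if_pos rfl]
  · intro l _ hl
    rw [Dk_apply, if_neg hl, mul_zero]
  · intro h
    exact absurd (Finset.mem_univ _) h

theorem star_Dk (p : L) (h : star p = p) : star (Dk p : Mt (Fin k) L) = Dk p := by
  refine Mt.ext fun i j => ?_
  rw [Mt.star_apply, Dk_apply, Dk_apply]
  by_cases h1 : i = j
  · rw [if_pos h1, if_pos h1.symm, h]
  · rw [if_neg h1, if_neg fun h2 => h1 h2.symm, star_zero]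

theorem pinch_Dk (p : L) (x : Mt (Fin k) L) (i j : Fin k) :
    pinch (Dk p) x i j = pinch p (x i j) := by
  have h1 : pinch (Dk p) x = Dk p * x * Dk p + (x - Dk p * x - x * Dk p + Dk p * x * Dk p) := by
    rw [pinch_apply]
    noncomm_ring
  have h2 : pinch p (x i j) = p * x i j * p +
      (x i j - p * x i j - x i j * p + p * x i j * p) := by
    rw [pinch_apply]
    noncomm_ring
  rw [h1, h2, Mt.add_apply, Mt.add_apply, Mt.sub_apply, Mt.sub_apply, mul_Dk, mul_Dk, Dk_mul]

theorem pinch_nonneg {A : Type} [CStarAlgebra A] [PartialOrder A] [StarOrderedRing A] (p x : A)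
    (hp : star p = p) (hx : 0 ≤ x) : 0 ≤ pinch p x := by
  rw [pinch_apply]
  have h1 : star (1 - p) = 1 - p := by rw [star_sub, star_one, hp]
  have h2 : 0 ≤ p * x * p := by
    have h := star_left_conjugate_nonneg hx p
    rwa [hp] at h
  have h3 : 0 ≤ (1 - p) * x * (1 - p) := by
    have h := star_left_conjugate_nonneg hx (1 - p)
    rwa [h1] at h
  exact add_nonneg h2 h3

end

variable {B : Type} [CStarAlgebra B] {θ : B →⋆ₐ[ℂ] B} (s : Sys B θ)
variable {L : Type} [CStarAlgebra L] (ι : ∀ i, s.A i →⋆ₐ[ℂ] L)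

theorem exists_root (P : L →ₗ[ℂ] L)
    (hc : ∀ a j, P a * ff s ι j = ff s ι j * P a)
    (hP : ∀ a, Tendsto (fun n => En s ι n a) atTop (𝓝 (P a))) {k : ℕ} (b : Mt (Fin k) L) :
    ∃ y : Mt (Fin k) L, star y = y ∧ (∀ i j, P ((star b * b) i j) = (y * y) i j) ∧
      ∀ j i i', y i i' * ff s ι j = ff s ι j * y i i' := by
  letI := CStarAlgebra.spectralOrder (Mt (Fin k) L)
  haveI := CStarAlgebra.spectralOrderedRing (Mt (Fin k) L)
  let X : ℕ → Mt (Fin k) L := fun n => Mt.of fun i j => En s ι n ((star b * b) i j)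
  have hX : ∀ n, 0 ≤ X n := by
    intro n
    induction n with
    | zero =>
      have h : X 0 = star b * b := rfl
      rw [h]
      exact star_mul_self_nonneg b
    | succ n ih =>
      have h : X (n + 1) = pinch (Dk (ff s ι (n + 1))) (X n) := by
        refine Mt.ext fun i j => ?_
        rw [pinch_Dk]
        rfl
      rw [h]
      exact pinch_nonneg _ _ (star_Dk _ (star_ff s ι _)) ih
  let Y : Mt (Fin k) L := Mt.of fun i j => P ((star b * b) i j)
  have hXY : Tendsto X atTop (𝓝 Y) := by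
    rw [tendsto_iff_norm_sub_tendsto_zero]
    have h1 : Tendsto (fun n => ∑ i, ∑ j, ‖(X n - Y) i j‖) atTop (𝓝 0) := by
      have h2 : ∀ i j, Tendsto (fun n => ‖(X n - Y) i j‖) atTop (𝓝 0) := by
        intro i j
        have h3 := tendsto_iff_norm_sub_tendsto_zero.1 (hP ((star b * b) i j))
        exact h3
      have h4 := tendsto_finset_sum Finset.univ fun i _ =>
        tendsto_finset_sum Finset.univ fun j _ => h2 i j
      simpa using h4
    exact squeeze_zero (fun n => norm_nonneg _) (fun n => Mt.norm_le_sum _) h1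
  have hY : 0 ≤ Y := ge_of_tendsto' hXY hX
  refine ⟨CFC.sqrt Y, (CFC.sqrt_nonneg Y).isSelfAdjoint.star_eq, fun i j => ?_, fun j i i' => ?_⟩
  · rw [CFC.sqrt_mul_sqrt_self Y hY]
    rfl
  · have h1 : Commute Y (Dk (ff s ι j)) := by
      show Y * Dk (ff s ι j) = Dk (ff s ι j) * Y
      refine Mt.ext fun l l' => ?_
      rw [mul_Dk, Dk_mul]
      exact hc _ _
    have h2 : Commute (CFC.sqrt Y) (Dk (ff s ι j)) := by
      rw [CFC.sqrt]
      exact Commute.cfcₙ_nnreal h1 _
    have h3 : (CFC.sqrt Y * Dk (ff s ι j) : Mt (Fin k) L) i i' =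
        (Dk (ff s ι j) * CFC.sqrt Y : Mt (Fin k) L) i i' := by rw [h2.eq]
    rw [mul_Dk, Dk_mul] at h3
    exact h3

theorem nuc (hl : IsLim s L ι) (hcar : IsCAR L) (h : L)
    (hh : HasSum (fun n : ℕ => (1 / 4 : ℂ) ^ n • gg s ι n) h) : Nuclear ↥(cen h) := by
  obtain ⟨P, hP1, hP2, hP3, -, hP5⟩ := exists_P s ι hl
  obtain ⟨τ, hτ1, -, hτ3, hτ4⟩ := p_CTR L hcar
  have hτ1' : τ 1 = 1 := hτ4 1 fun a => ⟨one_mul a, mul_one a⟩
  obtain ⟨e, j, -, -, hsub, hd⟩ := hcar
  intro F ε hε
  -- approximate the finite set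
  have hmono : ∀ i i', i ≤ i' → Set.range (j i) ⊆ Set.range (j i') := by
    intro i i' hi
    induction i', hi using Nat.le_induction with
    | base => exact subset_rfl
    | succ n _ ih => exact ih.trans (hsub n)
  have happ : ∃ i, ∀ d ∈ F, ∃ x, ‖j i x - (d : L)‖ < ε / 2 := by
    classical
    induction F using Finset.induction_on with
    | empty => exact ⟨0, fun d hd => absurd hd (Finset.notMem_empty d)⟩
    | insert d F _ ih =>
      obtain ⟨i, hi⟩ := ih
      obtain ⟨c, hc, hcb⟩ := Metric.dense_iff.1 hd (d : L) (ε / 2) (by positivity)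
      obtain ⟨i', hi'⟩ := Set.mem_iUnion.1 hcb
      refine ⟨max i i', fun d' hd' => ?_⟩
      rcases Finset.mem_insert.1 hd' with rfl | h1
      · obtain ⟨x, hx⟩ := hmono i' (max i i') (le_max_right _ _) hi'
        refine ⟨x, ?_⟩
        rw [hx, ← dist_eq_norm]
        exact Metric.mem_ball.1 hc
      · obtain ⟨x, hx⟩ := hi d' h1
        obtain ⟨x', hx'⟩ := hmono i (max i i') (le_max_left _ _) ⟨x, rfl⟩
        exact ⟨x', by rw [hx']; exact hx⟩
  obtain ⟨i, hi⟩ := happ
  have hm : 0 < 2 ^ e i := by positivity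
  let i0 : Fin (2 ^ e i) := ⟨0, hm⟩
  have hmem : ∀ a, P a ∈ cen h := fun a => (mem_comm_iff s ι hl h hh _).2 (hP2 a)
  let φ : ↥(cen h) →ₗ[ℂ] CStarMatrix (Fin (2 ^ e i)) (Fin (2 ^ e i)) ℂ :=
    { toFun := fun a => phi τ i0 (j i) (a : L)
      map_add' := fun a b => by
        rw [← map_add]
        rfl
      map_smul' := fun r a => by
        rw [RingHom.id_apply, ← map_smul]
        rfl }
  let ψ : CStarMatrix (Fin (2 ^ e i)) (Fin (2 ^ e i)) ℂ →ₗ[ℂ] ↥(cen h) :=
    { toFun := fun x => ⟨P (j i x), hmem _⟩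
      map_add' := fun a b => Subtype.ext (by
        show P (j i (a + b)) = P (j i a) + P (j i b)
        rw [map_add, map_add])
      map_smul' := fun r a => Subtype.ext (by
        show P (j i (r • a)) = r • P (j i a)
        rw [map_smul, map_smul]) }
  have hφ : ∀ a, φ a = phi τ i0 (j i) (a : L) := fun _ => rfl
  have hψ : ∀ x, (ψ x : L) = P (j i x) := fun _ => rfl
  refine ⟨2 ^ e i, φ, ψ, ?_, ?_, fun a => ?_, fun x => ?_, fun d hd => ?_⟩
  · intro k a
    obtain ⟨c, hc⟩ := phi_cp τ i0 (j i) hτ1 k (CStarMatrix.ofMatrix fun p q => (a p q : L))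
    refine ⟨c, ?_⟩
    rw [← hc]
    refine CStarMatrix.ext fun p q => ?_
    rw [CStarMatrix.map_apply, CStarMatrix.map_apply, hφ]
    congr 1
    rw [CStarMatrix.mul_apply, CStarMatrix.mul_apply, AddSubmonoidClass.coe_finset_sum]
    rfl
  · intro k a
    obtain ⟨y, hy1, hy2, hy3⟩ := exists_root s ι P hP2 hP5
      (Mt.of fun p q => j i (a p q) : Mt (Fin k) L)
    refine ⟨CStarMatrix.ofMatrix fun p q =>
      ⟨y p q, (mem_comm_iff s ι hl h hh _).2 fun n => hy3 n p q⟩, ?_⟩
    refine CStarMatrix.ext fun p q => ?_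
    apply Subtype.ext
    rw [CStarMatrix.map_apply, hψ, CStarMatrix.mul_apply (M := star (CStarMatrix.ofMatrix _)),
      AddSubmonoidClass.coe_finset_sum]
    have h1 : j i ((star a * a) p q) =
        (star (Mt.of fun p q => j i (a p q) : Mt (Fin k) L) *
          (Mt.of fun p q => j i (a p q) : Mt (Fin k) L)) p q := by
      rw [Mt.mul_apply, CStarMatrix.mul_apply, map_sum]
      refine Finset.sum_congr rfl fun r _ => ?_
      rw [map_mul, CStarMatrix.star_apply, map_star]
      rfl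
    rw [h1, hy2]
    have h2 : y * y = star y * y := by rw [hy1]
    rw [h2, Mt.mul_apply]
    rfl
  · rw [hφ]
    exact phi_norm τ i0 (j i) hτ1' hτ3 hτ1 _
  · show ‖(ψ x : L)‖ ≤ ‖x‖
    rw [hψ]
    exact (hP1 _).trans (NonUnitalStarAlgHom.norm_apply_le (j i) x)
  · obtain ⟨x, hx⟩ := hi d hd
    show ‖((ψ (φ d) - d : ↥(cen h)) : L)‖ < ε
    have h0 : ((ψ (φ d) - d : ↥(cen h)) : L) = P (j i (phi τ i0 (j i) (d : L))) - (d : L) := rfl
    have h1 : P (d : L) = d := hP3 _ ((mem_comm_iff s ι hl h hh _).1 d.2)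
    have h2 : P (j i (phi τ i0 (j i) (d : L))) - (d : L) =
        P (j i (phi τ i0 (j i) ((d : L) - j i x))) + P (j i x - d) := by
      rw [map_sub (phi τ i0 (j i)), phi_j τ i0 (j i) hτ1' hτ3, map_sub (j i), map_sub P, map_sub P,
        h1]
      abel
    rw [h0, h2]
    calc ‖P (j i (phi τ i0 (j i) ((d : L) - j i x))) + P (j i x - d)‖
        ≤ ‖P (j i (phi τ i0 (j i) ((d : L) - j i x)))‖ + ‖P (j i x - d)‖ := norm_add_le _ _
      _ ≤ ‖(d : L) - j i x‖ + ‖j i x - d‖ := by
          refine add_le_add ?_ (hP1 _)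
          exact ((hP1 _).trans (NonUnitalStarAlgHom.norm_apply_le (j i) _)).trans
            (phi_norm τ i0 (j i) hτ1' hτ3 hτ1 _)
      _ < ε := by
          rw [norm_sub_rev]
          linarith

end

end Pool.Agent.Helper82.BD
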