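import Pool.Agent.Helper82.BD.Pinch

/-!
# Project BD (MP_d97caa_an): the spectrum of the sum
-/

set_option autoImplicit false

open Filter Topology

namespace Pool.Agent.Helper82.BD

noncomputable section

variable {A : Type} [CStarAlgebra A]
variable (g : ℕ → A) (hs : ∀ n, star (g n) = g n) (hi : ∀ n, g n * g n = g n)
  (ho : ∀ m n, m ≠ n → g m * g n = 0)

include hi ho in
theorem h_mul_g (h : A) (hh : HasSum (fun n : ℕ => (1 / 4 : ℂ) ^ n • g n) h) (n : ℕ) :
    h * g n = (1 / 4 : ℂ) ^ n • g n := by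
  have h1 : HasSum (fun k : ℕ => ((1 / 4 : ℂ) ^ k • g k) * g n) (h * g n) := hh.mul_right (g n)
  have h2 : HasSum (fun k : ℕ => ((1 / 4 : ℂ) ^ k • g k) * g n) (((1 / 4 : ℂ) ^ n • g n) * g n) :=
    hasSum_single n fun k hk => by rw [smul_mul_assoc, ho k n hk, smul_zero]
  rw [h1.unique h2, smul_mul_assoc, hi n]

include hi ho in
theorem g_mul_h (h : A) (hh : HasSum (fun n : ℕ => (1 / 4 : ℂ) ^ n • g n) h) (n : ℕ) :
    g n * h = (1 / 4 : ℂ) ^ n • g n := by
  have h1 : HasSum (fun k : ℕ => g n * ((1 / 4 : ℂ) ^ k • g k)) (g n * h) := hh.mul_left (g n)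
  have h2 : HasSum (fun k : ℕ => g n * ((1 / 4 : ℂ) ^ k • g k)) (g n * ((1 / 4 : ℂ) ^ n • g n)) :=
    hasSum_single n fun k hk => by rw [mul_smul_comm, ho n k hk.symm, smul_zero]
  rw [h1.unique h2, mul_smul_comm, hi n]

include hs hi ho in
theorem spectrum_h (hne : ∀ n, g n ≠ 0) (h : A)
    (hh : HasSum (fun n : ℕ => (1 / 4 : ℂ) ^ n • g n) h) :
    spectrum ℂ h = insert 0 (Set.range fun n : ℕ => (1 / 4 : ℂ) ^ n) := by
  have hmem : ∀ n : ℕ, (1 / 4 : ℂ) ^ n ∈ spectrum ℂ h := by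
    intro n hu
    rw [spectrum.mem_resolventSet_iff] at hu
    obtain ⟨u, hu⟩ := hu
    have h1 : (u : A) * g n = 0 := by
      rw [hu, sub_mul, h_mul_g g hi ho h hh n, ← Algebra.smul_def, sub_self]
    apply hne n
    have h2 : ((u⁻¹ : Aˣ) : A) * ((u : A) * g n) = 0 := by rw [h1, mul_zero]
    rwa [← mul_assoc, Units.inv_mul, one_mul] at h2
  apply Set.Subset.antisymm
  · intro l hl
    by_contra hcon
    rw [Set.mem_insert_iff, not_or] at hcon
    obtain ⟨hl0, hl1⟩ := hcon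
    have hl2 : ∀ n : ℕ, l - (1 / 4 : ℂ) ^ n ≠ 0 := by
      intro n h1
      exact hl1 ⟨n, (sub_eq_zero.1 h1).symm⟩
    let c : ℕ → ℂ := fun n => (1 / 4 : ℂ) ^ n / (l - (1 / 4 : ℂ) ^ n)
    have ht : Tendsto (fun n : ℕ => (1 / 4 : ℂ) ^ n) atTop (𝓝 0) :=
      tendsto_pow_atTop_nhds_zero_of_norm_lt_one (by norm_num)
    have ht2 : Tendsto (fun n : ℕ => ‖l - (1 / 4 : ℂ) ^ n‖) atTop (𝓝 ‖l - 0‖) :=
      (tendsto_const_nhds.sub ht).norm
    rw [sub_zero] at ht2
    have hlpos : 0 < ‖l‖ := norm_pos_iff.2 hl0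
    have hev : ∀ᶠ n : ℕ in atTop, ‖l‖ / 2 < ‖l - (1 / 4 : ℂ) ^ n‖ :=
      ht2.eventually (lt_mem_nhds (by linarith))
    have hsum : Summable fun n : ℕ => c n • g n := by
      refine Summable.of_norm_bounded_eventually_nat (g := fun n : ℕ => (2 / ‖l‖) * (1 / 4 : ℝ) ^ n)
        ((summable_geometric_of_lt_one (by norm_num) (by norm_num)).mul_left _) ?_
      filter_upwards [hev] with n hn
      have h1 : ‖c n‖ ≤ (2 / ‖l‖) * (1 / 4 : ℝ) ^ n := by
        show ‖(1 / 4 : ℂ) ^ n / (l - (1 / 4 : ℂ) ^ n)‖ ≤ _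
        rw [norm_div, norm_pow]
        have h1 : ‖(1 / 4 : ℂ)‖ = 1 / 4 := by norm_num
        rw [h1, div_le_iff₀ (lt_of_le_of_lt (by positivity) hn)]
        have h2 : (0 : ℝ) ≤ (1 / 4) ^ n := by positivity
        calc (1 / 4 : ℝ) ^ n = (2 / ‖l‖) * (1 / 4 : ℝ) ^ n * (‖l‖ / 2) := by
              field_simp
          _ ≤ (2 / ‖l‖) * (1 / 4 : ℝ) ^ n * ‖l - (1 / 4 : ℂ) ^ n‖ := by
              gcongr
      rw [norm_smul]
      have h2 := norm_proj_le (g n) (hs _) (hi _)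
      calc ‖c n‖ * ‖g n‖ ≤ ‖c n‖ * 1 := by gcongr
        _ ≤ _ := by rw [mul_one]; exact h1
    obtain ⟨k, hk⟩ := hsum
    have e0 : ∀ n, l * c n - (1 / 4 : ℂ) ^ n - (1 / 4 : ℂ) ^ n * c n = 0 := by
      intro n
      show l * ((1 / 4 : ℂ) ^ n / (l - (1 / 4 : ℂ) ^ n)) - (1 / 4 : ℂ) ^ n -
        (1 / 4 : ℂ) ^ n * ((1 / 4 : ℂ) ^ n / (l - (1 / 4 : ℂ) ^ n)) = 0
      have := hl2 n
      field_simp
      ring
    have e1 : l • k - h - h * k = 0 := by
      have h1 : HasSum (fun n : ℕ => l • (c n • g n) - (1 / 4 : ℂ) ^ n • g n -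
          h * (c n • g n)) (l • k - h - h * k) :=
        ((hk.const_smul l).sub hh).sub (hk.mul_left h)
      have h2 : (fun n : ℕ => l • (c n • g n) - (1 / 4 : ℂ) ^ n • g n -
          h * (c n • g n)) = fun _ => 0 := by
        funext n
        rw [mul_smul_comm, h_mul_g g hi ho h hh n, smul_smul, smul_smul, ← sub_smul,
          mul_comm (c n), ← sub_smul, e0, zero_smul]
      rw [h2] at h1
      exact h1.unique hasSum_zero
    have e2 : l • k - h - k * h = 0 := by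
      have h1 : HasSum (fun n : ℕ => l • (c n • g n) - (1 / 4 : ℂ) ^ n • g n -
          (c n • g n) * h) (l • k - h - k * h) :=
        ((hk.const_smul l).sub hh).sub (hk.mul_right h)
      have h2 : (fun n : ℕ => l • (c n • g n) - (1 / 4 : ℂ) ^ n • g n -
          (c n • g n) * h) = fun _ => 0 := by
        funext n
        rw [smul_mul_assoc, g_mul_h g hi ho h hh n, smul_smul, smul_smul, ← sub_smul,
          mul_comm (c n), ← sub_smul, e0, zero_smul]
      rw [h2] at h1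
      exact h1.unique hasSum_zero
    have e3 : (algebraMap ℂ A l - h) * (1 + k) = algebraMap ℂ A l := by
      have : (algebraMap ℂ A l - h) * (1 + k) = algebraMap ℂ A l + (l • k - h - h * k) := by
        rw [sub_mul, mul_add, mul_add, mul_one, mul_one, Algebra.smul_def]
        abel
      rw [this, e1, add_zero]
    have e4 : (1 + k) * (algebraMap ℂ A l - h) = algebraMap ℂ A l := by
      have : (1 + k) * (algebraMap ℂ A l - h) = algebraMap ℂ A l + (l • k - h - k * h) := by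
        rw [mul_sub, add_mul, add_mul, one_mul, one_mul, ← Algebra.commutes, ← Algebra.smul_def]
        abel
      rw [this, e2, add_zero]
    apply hl
    rw [spectrum.mem_resolventSet_iff]
    have e5 : l⁻¹ • algebraMap ℂ A l = 1 := by
      rw [Algebra.algebraMap_eq_smul_one, smul_smul, inv_mul_cancel₀ hl0, one_smul]
    exact ⟨⟨algebraMap ℂ A l - h, l⁻¹ • (1 + k), by rw [mul_smul_comm, e3, e5],
      by rw [smul_mul_assoc, e4, e5]⟩, rfl⟩
  · intro l hl
    rcases Set.mem_insert_iff.1 hl with rfl | ⟨n, rfl⟩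
    · have ht : Tendsto (fun n : ℕ => (1 / 4 : ℂ) ^ n) atTop (𝓝 0) :=
        tendsto_pow_atTop_nhds_zero_of_norm_lt_one (by norm_num)
      exact (spectrum.isClosed (𝕜 := ℂ) h).mem_of_tendsto ht (Eventually.of_forall hmem)
    · exact hmem n

end

end Pool.Agent.Helper82.BD
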