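import Pool.Agent.Helper82.BD.TwoA
import Pool.Agent.Helper82.BD.NucB

/-!
# Project BD (MP_d97caa_an): commutants of two projections
-/

set_option autoImplicit false

open Filter Topology

namespace Pool.Agent.Helper82.BD

open Pool.Agent.Helper34.CAR

noncomputable section

variable {A : Type} [CStarAlgebra A]

/-- The functional calculus part: `s * s = 1/4 - k * k`, `s` invertible. -/
theorem exists_s (k : A) (hk : star k = k) (hn : ‖k‖ ≤ 1 / 4) :
    ∃ s s' : A, star s = s ∧ s * s = (1 / 4 : ℂ) • 1 - k * k ∧ s' * s = 1 ∧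
      ∀ x, k * x = x * k → s * x = x * s := by
  have hsa : IsSelfAdjoint k := hk
  have hsp : ∀ x ∈ spectrum ℝ k, 0 < 1 / 4 - x * x := by
    intro x hx
    have h1 := norm_apply_le_norm_cfc (fun x : ℝ => x) k hx (by fun_prop) hsa
    rw [cfc_id' ℝ k hsa, Real.norm_eq_abs] at h1
    have h2 := abs_le.1 (h1.trans hn)
    nlinarith [h2.1, h2.2]
  have hc1 : ContinuousOn (fun x : ℝ => Real.sqrt (1 / 4 - x * x)) (spectrum ℝ k) := by
    fun_prop
  have hc2 : ContinuousOn (fun x : ℝ => (Real.sqrt (1 / 4 - x * x))⁻¹) (spectrum ℝ k) :=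
    hc1.inv₀ fun x hx => (Real.sqrt_pos.2 (hsp x hx)).ne'
  refine ⟨cfc (fun x : ℝ => Real.sqrt (1 / 4 - x * x)) k,
    cfc (fun x : ℝ => (Real.sqrt (1 / 4 - x * x))⁻¹) k, ?_, ?_, ?_, fun x hx => ?_⟩
  · have h1 : IsSelfAdjoint (cfc (fun x : ℝ => Real.sqrt (1 / 4 - x * x)) k) :=
      cfc_predicate _ k
    exact h1
  · rw [← cfc_mul _ _ k hc1 hc1]
    have h1 : cfc (fun x : ℝ => Real.sqrt (1 / 4 - x * x) * Real.sqrt (1 / 4 - x * x)) k =
        cfc (fun x : ℝ => 1 / 4 - x * x) k :=
      cfc_congr fun x hx => Real.mul_self_sqrt (hsp x hx).le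
    rw [h1, cfc_sub (fun _ : ℝ => (1 / 4 : ℝ)) (fun x : ℝ => x * x) k (by fun_prop) (by fun_prop),
      cfc_mul (fun x : ℝ => x) (fun x : ℝ => x) k (by fun_prop) (by fun_prop), cfc_id' ℝ k hsa,
      cfc_const (1 / 4 : ℝ) k hsa]
    congr 1
    rw [Algebra.algebraMap_eq_smul_one, ← Complex.coe_smul]
    push_cast
    rfl
  · rw [← cfc_mul _ _ k hc2 hc1]
    have h1 : cfc (fun x : ℝ => (Real.sqrt (1 / 4 - x * x))⁻¹ * Real.sqrt (1 / 4 - x * x)) k =
        cfc (fun _ : ℝ => (1 : ℝ)) k :=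
      cfc_congr fun x hx => inv_mul_cancel₀ (Real.sqrt_pos.2 (hsp x hx)).ne'
    rw [h1, cfc_const_one ℝ k hsa]
  · have h1 : Commute k x := hx
    exact (h1.cfc_real _).eq

theorem exists_two (h : A) (hs : star h = h) : ∃ p q : Mt (Fin 2) A, star p = p ∧ p * p = p ∧
    star q = q ∧ q * q = q ∧
    Nonempty (Commutant ({h} : Set A) ≃⋆ₐ[ℂ] Commutant ({p, q} : Set (Mt (Fin 2) A))) := by
  have hr0 : (0 : ℝ) < (4 * (1 + ‖h‖))⁻¹ := by positivity
  let r : ℂ := (((4 * (1 + ‖h‖))⁻¹ : ℝ) : ℂ)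
  have hr : r ≠ 0 := Complex.ofReal_ne_zero.2 hr0.ne'
  let k : A := r • h
  have hk : star k = k := by
    show star (r • h) = r • h
    rw [star_smul, hs]
    congr 1
    exact Complex.conj_ofReal _
  have hkn : ‖k‖ ≤ 1 / 4 := by
    show ‖r • h‖ ≤ 1 / 4
    have h1 : ‖r‖ = (4 * (1 + ‖h‖))⁻¹ := by
      rw [Complex.norm_real, Real.norm_of_nonneg hr0.le]
    rw [norm_smul, h1, inv_mul_eq_div, div_le_iff₀ (by positivity)]
    linarith [norm_nonneg h]
  have hkh : ∀ x, x * k = k * x ↔ x * h = h * x := by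
    intro x
    show x * (r • h) = (r • h) * x ↔ _
    rw [mul_smul_comm, smul_mul_assoc]
    exact (smul_right_injective A hr).eq_iff
  obtain ⟨s, s', hs1, hs2, hs3, hs4⟩ := exists_s k hk hkn
  have hsk : k * s = s * k := (hs4 k rfl).symm
  let c : A := (1 / 2 : ℂ) • 1 + k
  have hcc : star c = c := by
    show star ((1 / 2 : ℂ) • 1 + k) = (1 / 2 : ℂ) • 1 + k
    rw [star_add, hk, star_smul, star_one]
    congr 2
    simp
  have hck : ∀ x, x * c = c * x ↔ x * k = k * x := by
    intro x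
    show x * ((1 / 2 : ℂ) • 1 + k) = ((1 / 2 : ℂ) • 1 + k) * x ↔ _
    rw [mul_add, add_mul, mul_smul_comm, smul_mul_assoc, mul_one, one_mul, add_right_inj]
  have hcs : c * s = s * c := ((hck s).2 hsk.symm).symm
  have hss : s * s = c - c * c := by
    rw [hs2]
    show _ = ((1 / 2 : ℂ) • 1 + k) - ((1 / 2 : ℂ) • 1 + k) * ((1 / 2 : ℂ) • 1 + k)
    simp only [add_mul, mul_add, smul_mul_assoc, mul_smul_comm, one_mul, mul_one, smul_smul,
      smul_add]
    module
  let p : Mt (Fin 2) A := Mt.of fun i j => if i = 0 ∧ j = 0 then 1 else 0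
  let q : Mt (Fin 2) A := Mt.of fun i j =>
    if i = 0 then (if j = 0 then c else s) else (if j = 0 then s else 1 - c)
  have p00 : p 0 0 = 1 := rfl
  have p01 : p 0 1 = 0 := rfl
  have p10 : p 1 0 = 0 := rfl
  have p11 : p 1 1 = 0 := rfl
  have q00 : q 0 0 = c := rfl
  have q01 : q 0 1 = s := rfl
  have q10 : q 1 0 = s := rfl
  have q11 : q 1 1 = 1 - c := rfl
  have hext : ∀ X Y : Mt (Fin 2) A, X 0 0 = Y 0 0 → X 0 1 = Y 0 1 → X 1 0 = Y 1 0 →
      X 1 1 = Y 1 1 → X = Y := by
    intro X Y h1 h2 h3 h4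
    refine Mt.ext fun i j => ?_
    fin_cases i <;> fin_cases j
    · exact h1
    · exact h2
    · exact h3
    · exact h4
  have hmul : ∀ (X Y : Mt (Fin 2) A) i j, (X * Y) i j = X i 0 * Y 0 j + X i 1 * Y 1 j := by
    intro X Y i j
    rw [Mt.mul_apply, Fin.sum_univ_two]
  have hp1 : star p = p := by
    apply hext <;> rw [Mt.star_apply]
    · rw [p00, star_one]
    · rw [p10, p01, star_zero]
    · rw [p10, p01, star_zero]
    · rw [p11, star_zero]
  have hp2 : p * p = p := by
    apply hext <;> rw [hmul] <;> simp [p00, p01, p10, p11]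
  have hq1 : star q = q := by
    apply hext <;> rw [Mt.star_apply]
    · rw [q00, hcc]
    · rw [q10, q01, hs1]
    · rw [q10, q01, hs1]
    · rw [q11, star_sub, star_one, hcc]
  have hq2 : q * q = q := by
    apply hext <;> rw [hmul]
    · rw [q00, q01, q10, hss]
      abel
    · rw [q00, q01, q11, mul_sub, mul_one, hcs]
      abel
    · rw [q00, q10, q11, sub_mul, one_mul, hcs]
      abel
    · rw [q01, q10, q11, hss]
      have : (1 - c) * (1 - c) = 1 - c - c + c * c := by noncomm_ring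
      rw [this]
      abel
  refine ⟨p, q, hp1, hp2, hq1, hq2, ?_⟩
  have hmem : ∀ X : Mt (Fin 2) A, X ∈ NonUnitalStarSubalgebra.centralizer ℂ ({p, q} :
      Set (Mt (Fin 2) A)) ↔ p * X = X * p ∧ q * X = X * q := by
    intro X
    rw [NonUnitalStarSubalgebra.mem_centralizer_iff]
    constructor
    · intro h1
      exact ⟨(h1 p (by simp)).1, (h1 q (by simp)).1⟩
    · rintro ⟨h1, h2⟩ g hg
      rcases hg with rfl | hg
      · rw [hp1]
        exact ⟨h1, h1⟩
      · rw [Set.mem_singleton_iff.1 hg, hq1]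
        exact ⟨h2, h2⟩
  have hDk : ∀ a ∈ cen h, (Dk a : Mt (Fin 2) A) ∈ NonUnitalStarSubalgebra.centralizer ℂ
      ({p, q} : Set (Mt (Fin 2) A)) := by
    intro a ha
    have h1 := (mem_cen h a hs).1 ha
    have h2 : a * k = k * a := (hkh a).2 h1
    have h3 : a * c = c * a := (hck a).2 h2
    have h4 : a * s = s * a := (hs4 a h2.symm).symm
    rw [hmem]
    constructor
    · apply hext <;> rw [mul_Dk, Dk_mul]
      · rw [p00, one_mul, mul_one]
      · rw [p01, zero_mul, mul_zero]
      · rw [p10, zero_mul, mul_zero]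
      · rw [p11, zero_mul, mul_zero]
    · apply hext <;> rw [mul_Dk, Dk_mul]
      · rw [q00, h3]
      · rw [q01, h4]
      · rw [q10, h4]
      · rw [q11, mul_sub, sub_mul, h3, mul_one, one_mul]
  let f : ↥(cen h) →⋆ₙₐ[ℂ] ↥(NonUnitalStarSubalgebra.centralizer ℂ
      ({p, q} : Set (Mt (Fin 2) A))) :=
    { toFun := fun a => ⟨Dk (a : A), hDk a a.2⟩
      map_smul' := fun r a => Subtype.ext (by
        show (Dk (r • (a : A)) : Mt (Fin 2) A) = r • Dk (a : A)
        refine Mt.ext fun i j => ?_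
        rw [Mt.smul_apply, Dk_apply, Dk_apply]
        split_ifs
        · rfl
        · rw [smul_zero])
      map_zero' := Subtype.ext (by
        show (Dk (0 : A) : Mt (Fin 2) A) = 0
        refine Mt.ext fun i j => ?_
        rw [Dk_apply, Mt.zero_apply, ite_self])
      map_add' := fun a b => Subtype.ext (by
        show (Dk ((a : A) + (b : A)) : Mt (Fin 2) A) = Dk (a : A) + Dk (b : A)
        refine Mt.ext fun i j => ?_
        rw [Mt.add_apply, Dk_apply, Dk_apply, Dk_apply]
        split_ifs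
        · rfl
        · rw [add_zero])
      map_mul' := fun a b => Subtype.ext (by
        show (Dk ((a : A) * (b : A)) : Mt (Fin 2) A) = Dk (a : A) * Dk (b : A)
        refine Mt.ext fun i j => ?_
        rw [Dk_mul, Dk_apply, Dk_apply]
        split_ifs
        · rfl
        · rw [mul_zero])
      map_star' := fun a => Subtype.ext (by
        show (Dk (star (a : A)) : Mt (Fin 2) A) = star (Dk (a : A))
        refine Mt.ext fun i j => ?_
        rw [Mt.star_apply, Dk_apply, Dk_apply]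
        by_cases h1 : i = j
        · rw [if_pos h1, if_pos h1.symm]
        · rw [if_neg h1, if_neg fun h2 => h1 h2.symm, star_zero]) }
  have hf : ∀ a, ((f a : ↥(NonUnitalStarSubalgebra.centralizer ℂ
      ({p, q} : Set (Mt (Fin 2) A)))) : Mt (Fin 2) A) = Dk (a : A) := fun _ => rfl
  have hbij : Function.Bijective f := by
    constructor
    · intro a b hab
      have h1 : (Dk (a : A) : Mt (Fin 2) A) = Dk (b : A) := by rw [← hf, ← hf, hab]
      have h2 : (Dk (a : A) : Mt (Fin 2) A) 0 0 = (Dk (b : A) : Mt (Fin 2) A) 0 0 := by rw [h1]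
      rw [Dk_apply, Dk_apply, if_pos rfl, if_pos rfl] at h2
      exact Subtype.ext h2
    · rintro ⟨X, hX⟩
      obtain ⟨h1, h2⟩ := (hmem X).1 hX
      have g1 : X 0 1 = 0 := by
        have e1 : (p * X) 0 1 = (X * p) 0 1 := by rw [h1]
        rw [hmul, hmul, p00, p01, p11, one_mul, zero_mul, add_zero, mul_zero, mul_zero,
          add_zero] at e1
        exact e1
      have g2 : X 1 0 = 0 := by
        have e1 : (p * X) 1 0 = (X * p) 1 0 := by rw [h1]
        rw [hmul, hmul, p10, p11, p00, zero_mul, zero_mul, add_zero, mul_one, mul_zero,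
          add_zero] at e1
        exact e1.symm
      have g3 : X 0 0 * c = c * X 0 0 := by
        have e1 : (q * X) 0 0 = (X * q) 0 0 := by rw [h2]
        rw [hmul, hmul, q00, q01, q10, g1, g2, mul_zero, add_zero, zero_mul, add_zero] at e1
        exact e1.symm
      have g4 : X 0 0 * k = k * X 0 0 := (hck _).1 g3
      have g5 : s * X 0 0 = X 0 0 * s := hs4 _ g4.symm
      have g6 : s * X 1 1 = X 0 0 * s := by
        have e1 : (q * X) 0 1 = (X * q) 0 1 := by rw [h2]
        rw [hmul, hmul, q00, q01, q11, g1, mul_zero, zero_add, zero_mul, add_zero] at e1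
        exact e1
      have g7 : X 1 1 = X 0 0 := by
        have e1 : s * X 1 1 = s * X 0 0 := by rw [g6, g5]
        have e2 : s' * (s * X 1 1) = s' * (s * X 0 0) := by rw [e1]
        rwa [← mul_assoc, ← mul_assoc, hs3, one_mul, one_mul] at e2
      refine ⟨⟨X 0 0, (mem_cen h _ hs).2 ((hkh _).1 g4)⟩, Subtype.ext ?_⟩
      rw [hf]
      apply hext
      · rfl
      · exact g1.symm
      · exact g2.symm
      · exact g7.symm
  exact ⟨StarAlgEquiv.ofBijective f hbij⟩

end

end Pool.Agent.Helper82.BD
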