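import Pool.Agent.Helper82.BD.Zero
import Pool.Agent.Helper82.BD.Spec
import Pool.Agent.Helper82.BD.NucB
import Pool.Agent.Helper82.BD.TwoB
import Pool.Agent.Helper39.CR.Final
import Pool.Agent.Helper39.CR.Parts6

/-!
# Project BD (MP_d97caa_an): commutants of self-adjoint elements of the CAR algebra
-/

set_option autoImplicit false

open scoped ComplexOrder ZeroAtInfty Topology
open TopologicalSpace Filter

namespace Pool.Agent.Helper82.BD

open Pool.Agent.Helper34.CAR Pool.Agent.Helper39.CR Pool.Agent.Helper39.CarDefs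
  Pool.Agent.Helper61.CAR Pool.Agent.Helper39.Uct

noncomputable section

/-- The statement. -/
def S_BD : Prop :=
    ∀ (D : Type) [NonUnitalCStarAlgebra D] [SeparableSpace D], Nuclear D →
    ∃ (A : Type) (_ : CStarAlgebra A) (h : A), IsCAR A ∧ star h = h ∧
      spectrum ℂ h = insert 0 (Set.range fun n : ℕ => (1 / 4 : ℂ) ^ n) ∧
      Nuclear (Commutant {h}) ∧
      ∀ T : Groups, IsTheory T → (T.Zero (Commutant {h}) ↔ T.Zero D)

theorem bd_core (hTDB : S_TDB2) (hNS : Helper61.CAR.S_NS) (hHOM : S_HOM) (hSTEP : S_STEP)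
    (hSYS : S_SYS2) (hKINJ : S_KINJ) (hIL : S_IL) (hCARL : S_CARL) (hEMB : S_EMB)
    (hTGR : S_TGR) (hEXT : S_EXT) : S_BD := by
  intro D _ _ hD
  obtain ⟨E, iE, sE, hPN, hCD, hφ⟩ := hTDB D hD
  have hTD : ∀ T : Theory, T.Zero (Unitization ℂ C₀(ℝ, E)) ↔ T.Zero D := fun T =>
    zero_iff_of T (hφ T)
  -- the separable unital algebra B
  have sX : SeparableSpace C₀(ℝ, E) := by
    obtain ⟨u, hu, -⟩ := hEMB E
    exact sep_of_inj u hu
  obtain ⟨s, hs, hs2⟩ := hSYS (Unitization ℂ C₀(ℝ, E)) (Unitization.starMap (flip E))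
    (hSTEP C₀(ℝ, E) (flip E) (hNS E hPN) (hHOM E))
  have hk := hKINJ _ _ s
  obtain ⟨L, iL, ι, hι1, hι2, hι3⟩ := hIL s.A s.κ hk
  have hlim : IsLim s L ι := ⟨hι1, hι2, hι3⟩
  have hcar : IsCAR L := hCARL _ _ s hs L ι hι1 hι2 hι3
  have sL : SeparableSpace L := sep_lim s L ι hlim
  have hθ2 : ∀ b : Unitization ℂ C₀(ℝ, E),
      (Unitization.starMap (flip E) : Unitization ℂ C₀(ℝ, E) →⋆ₐ[ℂ] _)
        ((Unitization.starMap (flip E) : Unitization ℂ C₀(ℝ, E) →⋆ₐ[ℂ] _) b) = b := by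
    intro b
    induction b with
    | inl_add_inr r a =>
      rw [map_add, map_add]
      have e1 : (Unitization.starMap (flip E) : Unitization ℂ C₀(ℝ, E) →⋆ₐ[ℂ] _)
          (Unitization.inl r) = Unitization.inl r := by
        simp
        rfl
      have e2 : ∀ a : C₀(ℝ, E), (Unitization.starMap (flip E) :
          Unitization ℂ C₀(ℝ, E) →⋆ₐ[ℂ] _) (a : Unitization ℂ C₀(ℝ, E)) =
          ((flip E a : C₀(ℝ, E)) : Unitization ℂ C₀(ℝ, E)) := by
        intro a
        simp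
      rw [e1, e1, e2, e2]
      congr 2
      ext t
      rw [flip_apply, flip_apply, neg_neg]
  have hsum : Summable fun n : ℕ => (1 / 4 : ℂ) ^ n • gg s ι n := by
    have h1 := summable_tail (gg s ι) (star_gg s ι) (gg_idem s ι hlim) 0
    simpa only [zero_add] using h1
  obtain ⟨h, hh⟩ := hsum
  refine ⟨L, iL, h, hcar, star_h s ι h hh,
    spectrum_h (gg s ι) (star_gg s ι) (gg_idem s ι hlim) (gg_orth s ι hlim) (gg_ne s ι hlim) h hh,
    nuc s ι hlim hcar h hh, fun T hT => ?_⟩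
  have h1 : (toTheory T hT).Zero ↥(cen h) ↔ (toTheory T hT).Zero D := by
    rw [← hTD]
    constructor
    · intro h0
      obtain ⟨i₀, p, hp⟩ := retract s ι hlim h hh hEXT hθ2
      exact zero_of_retract _ i₀ p hp h0
    · exact zero_back s ι hlim h hh hTGR _
  exact h1

theorem bd : S_BD :=
  bd_core p_TDB2 s_NS t_HOM t_STEP' p_SYS2 kinj t_IL t_CARL p_EMB p_TGR t_EXT

/-- The statement with two projections. -/
def S_BD2 : Prop :=
    ∀ (D : Type) [NonUnitalCStarAlgebra D] [SeparableSpace D], Nuclear D →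
    ∃ (A : Type) (_ : CStarAlgebra A) (h : A), IsCAR A ∧ star h = h ∧
      spectrum ℂ h = insert 0 (Set.range fun n : ℕ => (1 / 4 : ℂ) ^ n) ∧
      Nuclear (Commutant {h}) ∧
      (∀ T : Groups, IsTheory T → (T.Zero (Commutant {h}) ↔ T.Zero D)) ∧
      ∃ (A' : Type) (_ : CStarAlgebra A') (p q : A'), IsCAR A' ∧
        star p = p ∧ p * p = p ∧ star q = q ∧ q * q = q ∧
        Nonempty (Commutant {h} ≃⋆ₐ[ℂ] Commutant {p, q})

theorem bd2' : S_BD2 := by
  intro D _ _ hD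
  obtain ⟨A, iA, h, h1, h2, h3, h4, h5⟩ := bd D hD
  obtain ⟨p, q, hp1, hp2, hq1, hq2, he⟩ := exists_two h h2
  exact ⟨A, iA, h, h1, h2, h3, h4, h5, Mt (Fin 2) A, inferInstance, p, q, car_two h1, hp1, hp2,
    hq1, hq2, he⟩

end

end Pool.Agent.Helper82.BD
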