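import Mathlib

/-!
# Project BD (MP_d97caa_an): pinching, and commutants of sums of orthogonal projections
-/

set_option autoImplicit false

open Filter Topology

namespace Pool.Agent.Helper82.BD

noncomputable section

variable {A : Type} [CStarAlgebra A]

/-! ## Pinching -/

/-- The pinching `c ↦ p c p + (1 - p) c (1 - p)`. -/
def pinch (p : A) : A →ₗ[ℂ] A where
  toFun c := p * c * p + (1 - p) * c * (1 - p)
  map_add' a b := by
    simp only [mul_add, add_mul]
    abel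
  map_smul' r a := by
    simp only [mul_smul_comm, smul_mul_assoc, smul_add, RingHom.id_apply]

theorem pinch_apply (p c : A) : pinch p c = p * c * p + (1 - p) * c * (1 - p) := rfl

theorem norm_pinch_le (p : A) (h1 : star p = p) (h2 : p * p = p) (c : A) :
    ‖pinch p c‖ ≤ ‖c‖ := by
  set u : A := 2 * p - 1 with hu
  have hu1 : star u = u := by
    rw [hu, star_sub, star_mul, h1, star_one, star_ofNat, two_mul, mul_two]
  have hu2 : u * u = 1 := by
    rw [hu]
    have : (2 * p - 1) * (2 * p - 1) = 4 * (p * p) - 4 * p + 1 := by noncomm_ring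
    rw [this, h2, sub_self, zero_add]
  have hn : ‖u‖ ≤ 1 := by
    have h3 : ‖u‖ * ‖u‖ = ‖(1 : A)‖ := by
      rw [← CStarRing.norm_star_mul_self, hu1, hu2]
    rcases subsingleton_or_nontrivial A with hs | hs
    · rw [Subsingleton.elim u 0, norm_zero]
      exact zero_le_one
    · rw [CStarRing.norm_one] at h3
      nlinarith [norm_nonneg u]
  have h3 : pinch p c = (1 / 2 : ℂ) • (c + u * c * u) := by
    have h4 : (2 : ℂ) • pinch p c = c + u * c * u := by
      rw [pinch_apply, hu, two_smul]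
      noncomm_ring
    rw [← h4, smul_smul]
    norm_num
  rw [h3, norm_smul]
  have h5 : ‖u * c * u‖ ≤ ‖c‖ := by
    calc ‖u * c * u‖ ≤ ‖u‖ * ‖c‖ * ‖u‖ := (norm_mul_le _ _).trans
          (mul_le_mul_of_nonneg_right (norm_mul_le _ _) (norm_nonneg _))
      _ ≤ 1 * ‖c‖ * 1 := by gcongr
      _ = ‖c‖ := by ring
  have h6 : ‖c + u * c * u‖ ≤ 2 * ‖c‖ := by
    refine (norm_add_le _ _).trans ?_
    linarith
  have h7 : ‖(1 / 2 : ℂ)‖ = 1 / 2 := by norm_num
  rw [h7]
  linarith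

theorem pinch_of_comm (p : A) (h2 : p * p = p) (c : A) (hc : c * p = p * c) : pinch p c = c := by
  have h3 : p * c * p = p * c := by rw [mul_assoc, hc, ← mul_assoc, h2]
  have h4 : (1 - p) * c * (1 - p) = c - p * c := by
    rw [sub_mul, one_mul, mul_sub, mul_one, sub_mul, hc, h3]
    abel
  rw [pinch_apply, h3, h4]
  abel

theorem comm_pinch (p : A) (h2 : p * p = p) (c : A) : pinch p c * p = p * pinch p c := by
  have h3 : (1 - p) * p = 0 := by rw [sub_mul, one_mul, h2, sub_self]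
  have h4 : p * (1 - p) = 0 := by rw [mul_sub, mul_one, h2, sub_self]
  rw [pinch_apply, add_mul, mul_add]
  have e1 : p * c * p * p = p * (p * c * p) := by
    rw [mul_assoc (p * c) p p, h2, mul_assoc, ← mul_assoc p p, h2, ← mul_assoc]
  have e2 : (1 - p) * c * (1 - p) * p = 0 := by rw [mul_assoc, h3, mul_zero]
  have e3 : p * ((1 - p) * c * (1 - p)) = 0 := by
    rw [mul_assoc (1 - p), ← mul_assoc p, h4, zero_mul]
  rw [e1, e2, e3]

theorem comm_pinch_of_comm (p q : A) (hpq : p * q = q * p) (c : A) (hc : c * q = q * c) :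
    pinch p c * q = q * pinch p c := by
  have h1 : (1 - p) * q = q * (1 - p) := by rw [sub_mul, mul_sub, one_mul, mul_one, hpq]
  rw [pinch_apply, add_mul, mul_add]
  congr 1
  · rw [mul_assoc (p * c), hpq, ← mul_assoc, mul_assoc p c q, hc, ← mul_assoc p q c, hpq,
      mul_assoc q p c, mul_assoc q (p * c) p]
  · rw [mul_assoc ((1 - p) * c), h1, ← mul_assoc, mul_assoc (1 - p) c q, hc,
      ← mul_assoc (1 - p) q c, h1, mul_assoc q (1 - p) c, mul_assoc q ((1 - p) * c) (1 - p)]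

/-! ## Commutants of sums of orthogonal projections -/

/-- If `a` commutes with `g + r`, where `g` is idempotent, `g r = r g = 0` and `‖r‖ < 1`, then
`a` commutes with `g`. -/
theorem comm_of_comm_add (g r a : A) (hg : g * g = g) (hgr : g * r = 0) (hrg : r * g = 0)
    (hr : ‖r‖ < 1) (h : a * (g + r) = (g + r) * a) : a * g = g * a := by
  have h1 : ∀ k : ℕ, (g + r) ^ (k + 1) = g + r ^ (k + 1) := by
    intro k
    induction k with
    | zero => rw [zero_add, pow_one, pow_one]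
    | succ k ih =>
      rw [pow_succ, ih, add_mul, mul_add, mul_add, hg, hgr, add_zero, ← pow_succ]
      have h2 : r ^ (k + 1) * g = 0 := by rw [pow_succ, mul_assoc, hrg, mul_zero]
      rw [h2, zero_add]
  have h2 : Tendsto (fun k : ℕ => (g + r) ^ (k + 1)) atTop (𝓝 g) := by
    have h3 : Tendsto (fun k : ℕ => g + r ^ (k + 1)) atTop (𝓝 (g + 0)) :=
      tendsto_const_nhds.add
        ((tendsto_pow_atTop_nhds_zero_of_norm_lt_one hr).comp (tendsto_add_atTop_nat 1))
    rw [add_zero] at h3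
    simpa only [h1] using h3
  have h3 : ∀ k : ℕ, a * (g + r) ^ (k + 1) = (g + r) ^ (k + 1) * a := by
    intro k
    exact (Commute.pow_right h (k + 1))
  have h4 : Tendsto (fun k : ℕ => a * (g + r) ^ (k + 1)) atTop (𝓝 (a * g)) :=
    tendsto_const_nhds.mul h2
  have h5 : Tendsto (fun k : ℕ => (g + r) ^ (k + 1) * a) atTop (𝓝 (g * a)) :=
    h2.mul tendsto_const_nhds
  simp only [h3] at h4
  exact tendsto_nhds_unique h4 h5

theorem norm_proj_le (p : A) (h1 : star p = p) (h2 : p * p = p) : ‖p‖ ≤ 1 := by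
  have h3 : ‖p‖ * ‖p‖ = ‖p‖ := by
    rw [← CStarRing.norm_star_mul_self, h1, h2]
  by_contra h
  push Not at h
  nlinarith

section

variable (g : ℕ → A) (hs : ∀ n, star (g n) = g n) (hi : ∀ n, g n * g n = g n)
  (ho : ∀ m n, m ≠ n → g m * g n = 0)

include hs hi

theorem summable_tail (m : ℕ) : Summable fun n : ℕ => (1 / 4 : ℂ) ^ n • g (m + n) := by
  refine Summable.of_norm_bounded (g := fun n : ℕ => (1 / 4 : ℝ) ^ n)
    (summable_geometric_of_lt_one (by norm_num) (by norm_num)) fun n => ?_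
  rw [norm_smul, norm_pow]
  have h1 : ‖(1 / 4 : ℂ)‖ = 1 / 4 := by norm_num
  rw [h1]
  have h2 := norm_proj_le (g (m + n)) (hs _) (hi _)
  have h3 : (0 : ℝ) ≤ (1 / 4) ^ n := by positivity
  nlinarith

/-- The tails. -/
theorem norm_tail_le (m : ℕ) : ‖∑' n : ℕ, (1 / 4 : ℂ) ^ n • g (m + n)‖ ≤ 4 / 3 := by
  have h1 : ∀ n : ℕ, ‖(1 / 4 : ℂ) ^ n • g (m + n)‖ ≤ (1 / 4 : ℝ) ^ n := by
    intro n
    rw [norm_smul, norm_pow]
    have h1 : ‖(1 / 4 : ℂ)‖ = 1 / 4 := by norm_num
    rw [h1]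
    have h2 := norm_proj_le (g (m + n)) (hs _) (hi _)
    have h3 : (0 : ℝ) ≤ (1 / 4) ^ n := by positivity
    nlinarith
  have h2 : HasSum (fun n : ℕ => (1 / 4 : ℝ) ^ n) (1 - 1 / 4)⁻¹ :=
    hasSum_geometric_of_lt_one (by norm_num) (by norm_num)
  have h3 := tsum_of_norm_bounded h2 h1
  refine h3.trans (le_of_eq ?_)
  norm_num

theorem tail_eq (m : ℕ) : ∑' n : ℕ, (1 / 4 : ℂ) ^ n • g (m + n) =
    g m + (1 / 4 : ℂ) • ∑' n : ℕ, (1 / 4 : ℂ) ^ n • g (m + 1 + n) := by
  rw [(summable_tail g hs hi m).tsum_eq_zero_add, pow_zero, one_smul, add_zero]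
  congr 1
  rw [← (summable_tail g hs hi (m + 1)).tsum_const_smul]
  refine tsum_congr fun n => ?_
  rw [smul_smul, ← pow_succ', show m + (n + 1) = m + 1 + n by ring]

include ho

theorem comm_tail (a : A) (h : a * (∑' n : ℕ, (1 / 4 : ℂ) ^ n • g (0 + n)) =
    (∑' n : ℕ, (1 / 4 : ℂ) ^ n • g (0 + n)) * a) (m : ℕ) :
    a * (∑' n : ℕ, (1 / 4 : ℂ) ^ n • g (m + n)) =
      (∑' n : ℕ, (1 / 4 : ℂ) ^ n • g (m + n)) * a ∧ a * g m = g m * a := by
  have key : ∀ m : ℕ, a * (∑' n : ℕ, (1 / 4 : ℂ) ^ n • g (m + n)) =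
      (∑' n : ℕ, (1 / 4 : ℂ) ^ n • g (m + n)) * a → a * g m = g m * a := by
    intro m hm
    rw [tail_eq g hs hi m] at hm
    refine comm_of_comm_add (g m) _ a (hi m) ?_ ?_ ?_ hm
    · rw [mul_smul_comm, ← (summable_tail g hs hi (m + 1)).tsum_mul_left]
      have : ∀ n : ℕ, g m * ((1 / 4 : ℂ) ^ n • g (m + 1 + n)) = 0 := fun n => by
        rw [mul_smul_comm, ho m (m + 1 + n) (by omega), smul_zero]
      simp only [this, tsum_zero, smul_zero]
    · rw [smul_mul_assoc, ← (summable_tail g hs hi (m + 1)).tsum_mul_right]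
      have : ∀ n : ℕ, ((1 / 4 : ℂ) ^ n • g (m + 1 + n)) * g m = 0 := fun n => by
        rw [smul_mul_assoc, ho (m + 1 + n) m (by omega), smul_zero]
      simp only [this, tsum_zero, smul_zero]
    · rw [norm_smul]
      have h1 : ‖(1 / 4 : ℂ)‖ = 1 / 4 := by norm_num
      rw [h1]
      have h2 := norm_tail_le g hs hi (m + 1)
      linarith
  induction m with
  | zero => exact ⟨h, key 0 h⟩
  | succ m ih =>
    obtain ⟨h1, h2⟩ := ih
    rw [tail_eq g hs hi m, mul_add, add_mul, h2, add_right_inj, mul_smul_comm,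
      smul_mul_assoc] at h1
    have h3 : a * (∑' n : ℕ, (1 / 4 : ℂ) ^ n • g (m + 1 + n)) =
        (∑' n : ℕ, (1 / 4 : ℂ) ^ n • g (m + 1 + n)) * a :=
      smul_right_injective A (show (1 / 4 : ℂ) ≠ 0 by norm_num) h1
    exact ⟨h3, key (m + 1) h3⟩

/-- The commutant of `h = ∑ 4^(-n) g_n`. -/
theorem comm_iff (h : A) (hh : HasSum (fun n : ℕ => (1 / 4 : ℂ) ^ n • g n) h) (a : A) :
    a * h = h * a ↔ ∀ n, a * g n = g n * a := by
  constructor
  · intro ha n
    have h1 : ∑' n : ℕ, (1 / 4 : ℂ) ^ n • g (0 + n) = h := by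
      simp only [zero_add]
      exact hh.tsum_eq
    exact (comm_tail g hs hi ho a (by rw [h1]; exact ha) n).2
  · intro ha
    have h1 : HasSum (fun n : ℕ => a * ((1 / 4 : ℂ) ^ n • g n)) (a * h) := hh.mul_left a
    have h2 : HasSum (fun n : ℕ => ((1 / 4 : ℂ) ^ n • g n) * a) (h * a) := hh.mul_right a
    have h3 : (fun n : ℕ => a * ((1 / 4 : ℂ) ^ n • g n)) =
        fun n : ℕ => ((1 / 4 : ℂ) ^ n • g n) * a := by
      funext n
      rw [mul_smul_comm, smul_mul_assoc, ha n]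
    rw [h3] at h1
    exact h1.unique h2

end

end

end Pool.Agent.Helper82.BD
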