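import Pool.Agent.Helper82.BD.Dep
import Pool.Agent.Helper82.BD.Pinch

/-!
# Project BD (MP_d97caa_an): the projections, the expectation and the commutant
-/

set_option autoImplicit false

open scoped ComplexOrder ZeroAtInfty Topology
open TopologicalSpace Filter

namespace Pool.Agent.Helper82.BD

open Pool.Agent.Helper34.CAR Pool.Agent.Helper39.CR

noncomputable section

variable {B : Type} [CStarAlgebra B] {θ : B →⋆ₐ[ℂ] B} (s : Sys B θ)

/-! ## Pinching at a finite stage -/

theorem pinch_Dg (i j : ℕ) (a : s.A i) (x y : s.S i) :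
    pinch (Dg s i j) a x y = if (j ≤ dep s i x ↔ j ≤ dep s i y) then a x y else 0 := by
  have h : pinch (Dg s i j) a = Dg s i j * a * Dg s i j +
      (a - Dg s i j * a - a * Dg s i j + Dg s i j * a * Dg s i j) := by
    rw [pinch_apply]
    noncomm_ring
  rw [h, Mt.add_apply, Mt.add_apply, Mt.sub_apply, Mt.sub_apply, mul_Dg, mul_Dg, Dg_mul]
  by_cases h1 : j ≤ dep s i x <;> by_cases h2 : j ≤ dep s i y <;> simp [h1, h2]

/-- Successive pinching by the projections `Dg 1, .., Dg n`. -/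
def Mp (i : ℕ) : ℕ → s.A i → s.A i
  | 0, a => a
  | n + 1, a => pinch (Dg s i (n + 1)) (Mp i n a)

theorem Mp_succ (i n : ℕ) (a : s.A i) :
    Mp s i (n + 1) a = pinch (Dg s i (n + 1)) (Mp s i n a) := rfl

theorem Mp_zero_of (i n : ℕ) (a : s.A i) (x y : s.S i)
    (h : ∃ j, 1 ≤ j ∧ j ≤ n ∧ ¬ (j ≤ dep s i x ↔ j ≤ dep s i y)) : Mp s i n a x y = 0 := by
  induction n with
  | zero =>
    obtain ⟨j, h1, h2, -⟩ := h
    omega
  | succ n ih =>
    rw [Mp_succ, pinch_Dg]
    by_cases h1 : (n + 1 ≤ dep s i x ↔ n + 1 ≤ dep s i y)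
    · rw [if_pos h1]
      apply ih
      obtain ⟨j, h2, h3, h4⟩ := h
      refine ⟨j, h2, ?_, h4⟩
      rcases Nat.lt_or_ge n j with h5 | h5
      · have : j = n + 1 := by omega
        subst this
        exact absurd h1 h4
      · exact h5
    · rw [if_neg h1]

theorem Mp_mem (i : ℕ) (a : s.A i) : Mp s i i a ∈ grd B (dep s i) := by
  intro x y h
  apply Mp_zero_of
  rcases Nat.lt_or_gt_of_ne h with h1 | h1
  · exact ⟨dep s i y, by omega, dep_le s i y, by omega⟩
  · exact ⟨dep s i x, by omega, dep_le s i x, by omega⟩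

/-! ## The projections of the limit -/

variable {L : Type} [CStarAlgebra L] (ι : ∀ i, s.A i →⋆ₐ[ℂ] L)

/-- The decreasing sequence of projections. -/
def ff (j : ℕ) : L := ι j (Dg s j j)

/-- The orthogonal projections. -/
def gg (n : ℕ) : L := ff s ι n - ff s ι (n + 1)

theorem star_ff (j : ℕ) : star (ff s ι j) = ff s ι j := by
  rw [ff, ← map_star, star_Dg]

theorem star_gg (n : ℕ) : star (gg s ι n) = gg s ι n := by
  rw [gg, star_sub, star_ff, star_ff]

variable (hl : IsLim s L ι)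

include hl

theorem ι_Dg (i j : ℕ) (h : j ≤ i) : ι i (Dg s i j) = ff s ι j := by
  induction i, h using Nat.le_induction with
  | base => rfl
  | succ i hi ih => rw [← κ_Dg s i j hi, hl.comp, ih]

theorem ff_mul (j k : ℕ) : ff s ι j * ff s ι k = ff s ι (max j k) := by
  rw [← ι_Dg s ι hl (max j k) j (le_max_left j k), ← ι_Dg s ι hl (max j k) k (le_max_right j k),
    ← map_mul, Dg_mul_Dg, ι_Dg s ι hl (max j k) (max j k) le_rfl]

theorem ff_idem (j : ℕ) : ff s ι j * ff s ι j = ff s ι j := by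
  rw [ff_mul s ι hl, max_self]

theorem ff_comm (j k : ℕ) : ff s ι j * ff s ι k = ff s ι k * ff s ι j := by
  rw [ff_mul s ι hl, ff_mul s ι hl, max_comm]

theorem ff_mul_of_le (j k : ℕ) (h : j ≤ k) : ff s ι j * ff s ι k = ff s ι k := by
  rw [ff_mul s ι hl, max_eq_right h]

theorem ff_mul_of_ge (j k : ℕ) (h : k ≤ j) : ff s ι j * ff s ι k = ff s ι j := by
  rw [ff_mul s ι hl, max_eq_left h]

theorem ff_zero : ff s ι 0 = 1 := by
  have h : Dg s 0 0 = 1 := by
    refine Mt.ext fun x y => ?_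
    rw [Dg_apply, Mt.one_apply]
    by_cases h : x = y
    · rw [if_pos ⟨h, Nat.zero_le _⟩, if_pos h]
    · rw [if_neg fun h' => h h'.1, if_neg h]
  rw [ff, h, map_one]

theorem gg_idem (n : ℕ) : gg s ι n * gg s ι n = gg s ι n := by
  rw [gg, sub_mul, mul_sub, mul_sub, ff_idem s ι hl, ff_idem s ι hl,
    ff_mul_of_le s ι hl n (n + 1) (by omega), ff_mul_of_ge s ι hl (n + 1) n (by omega)]
  abel

theorem gg_orth (m n : ℕ) (h : m ≠ n) : gg s ι m * gg s ι n = 0 := by
  rw [gg, gg, sub_mul, mul_sub, mul_sub]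
  rcases Nat.lt_or_gt_of_ne h with h1 | h1
  · rw [ff_mul_of_le s ι hl m n (by omega), ff_mul_of_le s ι hl m (n + 1) (by omega),
      ff_mul_of_le s ι hl (m + 1) n (by omega), ff_mul_of_le s ι hl (m + 1) (n + 1) (by omega)]
    abel
  · rw [ff_mul_of_ge s ι hl m n (by omega), ff_mul_of_ge s ι hl m (n + 1) (by omega),
      ff_mul_of_ge s ι hl (m + 1) n (by omega), ff_mul_of_ge s ι hl (m + 1) (n + 1) (by omega)]
    abel

theorem gg_ne [Nontrivial B] (n : ℕ) : gg s ι n ≠ 0 := by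
  have h1 : gg s ι n = ι (n + 1) (Dg s (n + 1) n - Dg s (n + 1) (n + 1)) := by
    rw [map_sub, ι_Dg s ι hl (n + 1) n (by omega), ι_Dg s ι hl (n + 1) (n + 1) le_rfl, gg]
  rw [h1]
  intro h2
  have h3 : Dg s (n + 1) n - Dg s (n + 1) (n + 1) = 0 :=
    hl.inj (n + 1) (by rw [h2, map_zero])
  obtain ⟨hc, -⟩ := s.step n
  let x : s.S (n + 1) := (s.e n).symm (s.top n, s.c1 n)
  have hx1 : (s.e n x).1 = s.top n := by rw [Equiv.apply_symm_apply]
  have hx2 : (s.e n x).2 = s.c1 n := by rw [Equiv.apply_symm_apply]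
  have h4 : dep s (n + 1) x = n := by
    rw [dep_succ, if_neg, hx1]
    · exact (dep_eq_iff s n _).2 rfl
    · rintro ⟨-, h5⟩
      rw [hx2] at h5
      exact hc h5.symm
  have h5 : (Dg s (n + 1) n - Dg s (n + 1) (n + 1)) x x = (0 : s.A (n + 1)) x x := by rw [h3]
  rw [Mt.sub_apply, Dg_apply, Dg_apply, h4, if_pos ⟨rfl, le_rfl⟩, if_neg (by omega),
    Mt.zero_apply, sub_zero] at h5
  exact one_ne_zero h5

theorem comm_gg_iff (a : L) :
    (∀ n, a * gg s ι n = gg s ι n * a) ↔ ∀ j, a * ff s ι j = ff s ι j * a := by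
  constructor
  · intro h j
    induction j with
    | zero => rw [ff_zero s ι hl, mul_one, one_mul]
    | succ j ih =>
      have h1 : ff s ι (j + 1) = ff s ι j - gg s ι j := by
        rw [gg]
        abel
      rw [h1, mul_sub, sub_mul, ih, h j]
  · intro h n
    rw [gg, mul_sub, sub_mul, h, h]

theorem lift_grd (i j : ℕ) (h : i ≤ j) (a : s.A i) (ha : a ∈ grd B (dep s i)) :
    ∃ a' ∈ grd B (dep s j), ι j a' = ι i a := by
  induction j, h using Nat.le_induction with
  | base => exact ⟨a, ha, rfl⟩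
  | succ j hj ih =>
    obtain ⟨a', h1, h2⟩ := ih
    exact ⟨s.κ j a', κ_mem_dep s j a' h1, by rw [hl.comp, h2]⟩

theorem comm_of_grd (i : ℕ) (a : s.A i) (ha : a ∈ grd B (dep s i)) (j : ℕ) :
    ι i a * ff s ι j = ff s ι j * ι i a := by
  obtain ⟨a', h1, h2⟩ := lift_grd s ι hl i (max i j) (le_max_left i j) a ha
  rw [← h2, ← ι_Dg s ι hl (max i j) j (le_max_right i j), ← map_mul, ← map_mul,
    comm_Dg s (max i j) j a' h1]

/-! ## The expectation -/

omit hl in
/-- Successive pinching by the projections `ff 1, .., ff n`. -/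
def En : ℕ → L →ₗ[ℂ] L
  | 0 => LinearMap.id
  | n + 1 => (pinch (ff s ι (n + 1))).comp (En n)

omit hl in
theorem En_succ (n : ℕ) (c : L) : En s ι (n + 1) c = pinch (ff s ι (n + 1)) (En s ι n c) := rfl

theorem norm_En_le (n : ℕ) (c : L) : ‖En s ι n c‖ ≤ ‖c‖ := by
  induction n with
  | zero => exact le_rfl
  | succ n ih =>
    rw [En_succ]
    exact (norm_pinch_le _ (star_ff s ι _) (ff_idem s ι hl _) _).trans ih

omit hl in
theorem map_pinch (i : ℕ) (p a : s.A i) : ι i (pinch p a) = pinch (ι i p) (ι i a) := by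
  rw [pinch_apply, pinch_apply, map_add, map_mul, map_mul, map_mul, map_mul, map_sub, map_one]

theorem En_stage (i n : ℕ) (h : n ≤ i) (a : s.A i) : En s ι n (ι i a) = ι i (Mp s i n a) := by
  induction n with
  | zero => rfl
  | succ n ih =>
    rw [En_succ, ih (by omega), Mp_succ, map_pinch, ι_Dg s ι hl i (n + 1) h]

theorem En_of_comm (n : ℕ) (c : L) (hc : ∀ j, c * ff s ι j = ff s ι j * c) :
    En s ι n c = c := by
  induction n with
  | zero => rfl
  | succ n ih =>
    rw [En_succ, ih, pinch_of_comm _ (ff_idem s ι hl _) c (hc _)]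

theorem En_stage_ge (i n : ℕ) (h : i ≤ n) (a : s.A i) :
    En s ι n (ι i a) = ι i (Mp s i i a) := by
  induction n, h using Nat.le_induction with
  | base => exact En_stage s ι hl i i le_rfl a
  | succ n hn ih =>
    rw [En_succ, ih]
    exact pinch_of_comm _ (ff_idem s ι hl _) _ (comm_of_grd s ι hl i _ (Mp_mem s i a) _)

theorem comm_En (n : ℕ) (c : L) (j : ℕ) (h : j ≤ n) :
    En s ι n c * ff s ι j = ff s ι j * En s ι n c := by
  induction n with
  | zero =>
    have : j = 0 := by omega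
    subst this
    rw [ff_zero s ι hl, mul_one, one_mul]
  | succ n ih =>
    rw [En_succ]
    rcases Nat.lt_or_ge n j with h1 | h1
    · have : j = n + 1 := by omega
      subst this
      exact comm_pinch _ (ff_idem s ι hl _) _
    · exact comm_pinch_of_comm _ _ (ff_comm s ι hl _ _) _ (ih h1)

theorem exists_P : ∃ P : L →ₗ[ℂ] L, (∀ a, ‖P a‖ ≤ ‖a‖) ∧
    (∀ a j, P a * ff s ι j = ff s ι j * P a) ∧
    (∀ a, (∀ j, a * ff s ι j = ff s ι j * a) → P a = a) ∧
    (∀ i (a : s.A i), ∃ a' ∈ grd B (dep s i), P (ι i a) = ι i a') ∧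
    ∀ a, Tendsto (fun n => En s ι n a) atTop (𝓝 (P a)) := by
  have hC : ∀ c : L, ∃ l, Tendsto (fun n => En s ι n c) atTop (𝓝 l) := by
    intro c
    apply cauchySeq_tendsto_of_complete
    rw [Metric.cauchySeq_iff']
    intro ε hε
    obtain ⟨b, hb, hcb⟩ := Metric.dense_iff.1 hl.dense c (ε / 2) (by positivity)
    obtain ⟨i, hi⟩ := Set.mem_iUnion.1 hcb
    obtain ⟨a, rfl⟩ := hi
    rw [Metric.mem_ball, dist_eq_norm] at hb
    refine ⟨i, fun n hn => ?_⟩
    have h1 : En s ι n c - En s ι i c =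
        En s ι i (ι i a - c) - En s ι n (ι i a - c) := by
      rw [map_sub, map_sub, En_stage_ge s ι hl i n hn, En_stage_ge s ι hl i i le_rfl]
      abel
    rw [dist_eq_norm, h1]
    calc ‖En s ι i (ι i a - c) - En s ι n (ι i a - c)‖
        ≤ ‖En s ι i (ι i a - c)‖ + ‖En s ι n (ι i a - c)‖ := norm_sub_le _ _
      _ ≤ ‖ι i a - c‖ + ‖ι i a - c‖ :=
          add_le_add (norm_En_le s ι hl i _) (norm_En_le s ι hl n _)
      _ < ε := by linarith
  choose P0 hP0 using hC
  let P : L →ₗ[ℂ] L :=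
    { toFun := P0
      map_add' := fun a b => by
        refine tendsto_nhds_unique (hP0 (a + b)) ?_
        simp only [map_add]
        exact (hP0 a).add (hP0 b)
      map_smul' := fun r a => by
        refine tendsto_nhds_unique (hP0 (r • a)) ?_
        simp only [map_smul]
        exact (hP0 a).const_smul r }
  have hP : ∀ c, Tendsto (fun n => En s ι n c) atTop (𝓝 (P c)) := hP0
  refine ⟨P, fun a => ?_, fun a j => ?_, fun a ha => ?_, fun i a => ?_, hP⟩
  · exact le_of_tendsto (hP a).norm (Eventually.of_forall fun n => norm_En_le s ι hl n a)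
  · have h1 : Tendsto (fun n => En s ι n a * ff s ι j) atTop (𝓝 (P a * ff s ι j)) :=
      (hP a).mul tendsto_const_nhds
    have h2 : Tendsto (fun n => ff s ι j * En s ι n a) atTop (𝓝 (ff s ι j * P a)) :=
      tendsto_const_nhds.mul (hP a)
    refine tendsto_nhds_unique (h1.congr' ?_) h2
    filter_upwards [eventually_ge_atTop j] with n hn
    exact comm_En s ι hl n a j hn
  · refine tendsto_nhds_unique (hP a) ?_
    simp only [En_of_comm s ι hl _ a ha]
    exact tendsto_const_nhds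
  · refine ⟨Mp s i i a, Mp_mem s i a, ?_⟩
    refine tendsto_nhds_unique (hP (ι i a)) ?_
    refine tendsto_const_nhds.congr' ?_
    filter_upwards [eventually_ge_atTop i] with n hn
    exact (En_stage_ge s ι hl i n hn a).symm

theorem approx_comm (b : L) (hb : ∀ j, b * ff s ι j = ff s ι j * b) (ε : ℝ) (hε : 0 < ε) :
    ∃ i, ∃ a ∈ grd B (dep s i), ‖b - ι i a‖ < ε := by
  obtain ⟨P, h1, -, h3, h4, -⟩ := exists_P s ι hl
  obtain ⟨c, hc, hcb⟩ := Metric.dense_iff.1 hl.dense b ε hε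
  obtain ⟨i, hi⟩ := Set.mem_iUnion.1 hcb
  obtain ⟨a, rfl⟩ := hi
  rw [Metric.mem_ball, dist_comm, dist_eq_norm] at hc
  obtain ⟨a', ha', hPa⟩ := h4 i a
  refine ⟨i, a', ha', ?_⟩
  have h5 : b - ι i a' = P (b - ι i a) := by
    rw [map_sub, h3 b hb, hPa]
  rw [h5]
  exact (h1 _).trans_lt hc

end

end Pool.Agent.Helper82.BD
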