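import Pool.Agent.Helper34.CAR.Mt

/-!
# Project BD (MP_d97caa_an): two by two matrices over the CAR algebra
-/

set_option autoImplicit false

open Filter Topology

namespace Pool.Agent.Helper82.BD

open Pool.Agent.Helper34.CAR

noncomputable section

/-- Indices of block matrices. -/
def blk (e : ℕ) : Fin 2 × Fin (2 ^ e) ≃ Fin (2 ^ (e + 1)) :=
  finProdFinEquiv.trans (finCongr (by rw [pow_succ, mul_comm]))

/-- The block of a matrix. -/
def bl (e : ℕ) (x : CStarMatrix (Fin (2 ^ (e + 1))) (Fin (2 ^ (e + 1))) ℂ) (a b : Fin 2) :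
    CStarMatrix (Fin (2 ^ e)) (Fin (2 ^ e)) ℂ :=
  CStarMatrix.ofMatrix fun k l => x (blk e (a, k)) (blk e (b, l))

theorem bl_apply (e : ℕ) (x : CStarMatrix (Fin (2 ^ (e + 1))) (Fin (2 ^ (e + 1))) ℂ)
    (a b : Fin 2) (k l : Fin (2 ^ e)) : bl e x a b k l = x (blk e (a, k)) (blk e (b, l)) := rfl

theorem bl_mul (e : ℕ) (x y : CStarMatrix (Fin (2 ^ (e + 1))) (Fin (2 ^ (e + 1))) ℂ)
    (a b : Fin 2) : bl e (x * y) a b = ∑ c, bl e x a c * bl e y c b := by
  ext k l
  rw [bl_apply, CStarMatrix.mul_apply, Fin.sum_univ_two, CStarMatrix.add_apply,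
    CStarMatrix.mul_apply, CStarMatrix.mul_apply, ← (blk e).sum_comp, Fintype.sum_prod_type,
    Fin.sum_univ_two]
  rfl

theorem bl_one (e : ℕ) (a b : Fin 2) : bl e 1 a b = if a = b then 1 else 0 := by
  ext k l
  rw [bl_apply, CStarMatrix.one_apply]
  have h0 : blk e (a, k) = blk e (b, l) ↔ a = b ∧ k = l := by
    rw [(blk e).apply_eq_iff_eq, Prod.mk.injEq]
  by_cases h : a = b
  · rw [if_pos h, CStarMatrix.one_apply]
    by_cases h1 : k = l
    · rw [if_pos h1, if_pos (h0.2 ⟨h, h1⟩)]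
    · rw [if_neg h1, if_neg fun h2 => h1 (h0.1 h2).2]
  · rw [if_neg h, CStarMatrix.zero_apply, if_neg fun h2 => h (h0.1 h2).1]

theorem bl_star (e : ℕ) (x : CStarMatrix (Fin (2 ^ (e + 1))) (Fin (2 ^ (e + 1))) ℂ)
    (a b : Fin 2) : bl e (star x) a b = star (bl e x b a) := by
  ext k l
  rw [bl_apply, CStarMatrix.star_apply, CStarMatrix.star_apply, bl_apply]

variable {A : Type} [CStarAlgebra A]

/-- The map into the two by two matrices. -/
def two (e : ℕ) (j : CStarMatrix (Fin (2 ^ e)) (Fin (2 ^ e)) ℂ →⋆ₐ[ℂ] A) :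
    CStarMatrix (Fin (2 ^ (e + 1))) (Fin (2 ^ (e + 1))) ℂ →⋆ₐ[ℂ] Mt (Fin 2) A where
  toFun x := Mt.of fun a b => j (bl e x a b)
  map_one' := by
    refine Mt.ext fun a b => ?_
    rw [Mt.of_apply, bl_one, Mt.one_apply]
    split_ifs
    · exact map_one j
    · exact map_zero j
  map_mul' x y := by
    refine Mt.ext fun a b => ?_
    rw [Mt.of_apply, bl_mul, map_sum, Mt.mul_apply]
    exact Finset.sum_congr rfl fun c _ => map_mul j _ _
  map_zero' := by
    refine Mt.ext fun a b => ?_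
    exact map_zero j
  map_add' x y := by
    refine Mt.ext fun a b => ?_
    exact map_add j _ _
  commutes' r := by
    refine Mt.ext fun a b => ?_
    rw [Mt.of_apply, Mt.algebraMap_apply, Algebra.algebraMap_eq_smul_one]
    have h : bl e (r • 1) a b = r • bl e 1 a b := rfl
    rw [h, bl_one, map_smul]
    split_ifs
    · rw [map_one, Algebra.algebraMap_eq_smul_one]
    · rw [map_zero, smul_zero]
  map_star' x := by
    refine Mt.ext fun a b => ?_
    rw [Mt.of_apply, bl_star, map_star, Mt.star_apply]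
    rfl

theorem two_apply (e : ℕ) (j : CStarMatrix (Fin (2 ^ e)) (Fin (2 ^ e)) ℂ →⋆ₐ[ℂ] A)
    (x : CStarMatrix (Fin (2 ^ (e + 1))) (Fin (2 ^ (e + 1))) ℂ) (a b : Fin 2) :
    two e j x a b = j (bl e x a b) := rfl

theorem mem_range_two (e : ℕ) (j : CStarMatrix (Fin (2 ^ e)) (Fin (2 ^ e)) ℂ →⋆ₐ[ℂ] A)
    (X : Mt (Fin 2) A) : X ∈ Set.range (two e j) ↔ ∀ a b, X a b ∈ Set.range j := by
  constructor
  · rintro ⟨x, rfl⟩ a b
    exact ⟨_, rfl⟩
  · intro h
    choose y hy using h
    refine ⟨CStarMatrix.ofMatrix fun k l =>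
      y ((blk e).symm k).1 ((blk e).symm l).1 ((blk e).symm k).2 ((blk e).symm l).2, ?_⟩
    refine Mt.ext fun a b => ?_
    rw [two_apply, ← hy a b]
    congr 1
    ext k l
    rw [bl_apply]
    show y ((blk e).symm (blk e (a, k))).1 ((blk e).symm (blk e (b, l))).1
      ((blk e).symm (blk e (a, k))).2 ((blk e).symm (blk e (b, l))).2 = y a b k l
    rw [Equiv.symm_apply_apply, Equiv.symm_apply_apply]

/-- `M_2(A)` is a CAR algebra if `A` is one. -/
theorem car_two (hA : IsCAR A) : IsCAR (Mt (Fin 2) A) := by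
  obtain ⟨e, j, he, hinj, hsub, hd⟩ := hA
  refine ⟨fun i => e i + 1, fun i => two (e i) (j i), fun i i' h => Nat.succ_lt_succ (he h),
    fun i => ?_, fun i => ?_, ?_⟩
  · intro x y hxy
    have h1 : ∀ a b, bl (e i) x a b = bl (e i) y a b := fun a b => by
      apply hinj i
      rw [← two_apply, ← two_apply, hxy]
    ext k l
    have h2 := congrArg (fun z : CStarMatrix (Fin (2 ^ e i)) (Fin (2 ^ e i)) ℂ =>
      z ((blk (e i)).symm k).2 ((blk (e i)).symm l).2)
      (h1 ((blk (e i)).symm k).1 ((blk (e i)).symm l).1)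
    simp only [bl_apply, Prod.mk.eta, Equiv.apply_symm_apply] at h2
    exact h2
  · intro X hX
    exact (mem_range_two _ _ X).2 fun a b => hsub i ((mem_range_two _ _ X).1 hX a b)
  · have hmono : ∀ i i', i ≤ i' → Set.range (j i) ⊆ Set.range (j i') := by
      intro i i' hi
      induction i', hi using Nat.le_induction with
      | base => exact subset_rfl
      | succ n _ ih => exact ih.trans (hsub n)
    rw [Metric.dense_iff]
    intro X ε hε
    have h1 : ∀ a b, ∃ i, ∃ x, ‖j i x - X a b‖ < ε / 5 := by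
      intro a b
      obtain ⟨c, hc, hcb⟩ := Metric.dense_iff.1 hd (X a b) (ε / 5) (by positivity)
      obtain ⟨i, x, hx⟩ := Set.mem_iUnion.1 hcb
      exact ⟨i, x, by rw [hx, ← dist_eq_norm]; exact Metric.mem_ball.1 hc⟩
    choose i x hx using h1
    let N := max (max (i 0 0) (i 0 1)) (max (i 1 0) (i 1 1))
    have hN : ∀ a b, i a b ≤ N := by
      intro a b
      fin_cases a <;> fin_cases b <;> simp [N]
    let Y : Mt (Fin 2) A := Mt.of fun a b => j (i a b) (x a b)
    refine ⟨Y, ?_, Set.mem_iUnion.2 ⟨N, (mem_range_two _ _ Y).2 fun a b =>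
      hmono _ _ (hN a b) ⟨x a b, rfl⟩⟩⟩
    rw [Metric.mem_ball, dist_eq_norm]
    have h2 := Mt.norm_le_sum (Y - X)
    have h3 : ∀ a b, ‖(Y - X) a b‖ < ε / 5 := fun a b => hx a b
    simp only [Fin.sum_univ_two] at h2
    have h4 := h3 0 0
    have h5 := h3 0 1
    have h6 := h3 1 0
    have h7 := h3 1 1
    linarith

end

end Pool.Agent.Helper82.BD
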